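import Pool.Agent.H426R3.SQ.Lin2
import Pool.Agent.X67.QS.Cov
import Pool.Agent.X67.QS.Lin

set_option autoImplicit false

/-! # Record gaps around a number and its square in every equidistributed family

Adapted from `Pool.Agent.H426R3.SQ.number_square_main` (helper426). -/

namespace Pool.Agent.X67.QS

open Finset Pool.Agent.H256R2.SC
open Pool.Agent.H426R3.SQ

open scoped Classical

theorem number_square_fam : ∃ c : ℝ, 0 < c ∧ ∃ Y₀ : ℝ, ∀ Y : ℝ, Y₀ ≤ Y →
    ∀ (I : Finset ℤ) (v : ℤ → ℤ), I.Nonempty → (∀ i ∈ I, Y ≤ (v i : ℝ)) →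
    (∀ q : ℕ, 1 ≤ q → (q : ℝ) ≤ Y → ∀ ρ : ℤ,
      |((I.filter (fun i => (q : ℤ) ∣ v i - ρ)).card : ℝ) - I.card / (q : ℝ)| ≤
        I.card * Y ^ (-2 : ℝ)) →
    ∃ i ∈ I, ∀ q : ℕ, q.Prime → c * Pool.Agent.H256R2.SC.ff Y < |(q : ℝ) - (v i : ℝ)| ∧
      c * Pool.Agent.H256R2.SC.ff Y < |(q : ℝ) - (v i : ℝ) ^ 2| := by
  obtain ⟨Cf, hCf, L₁, hfew⟩ := few_bad_of char_blocks exists_char same_rho_count
  obtain ⟨Cm, hCm, hmer⟩ := mertens_SP
  obtain ⟨c₂, hc₂, y₁, hy₁, hRL⟩ := rough_lower_B (Cf + Cm + 1)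
  obtain ⟨c, hc, X₁, hcov⟩ := covering_hit_rel (c₂ / 3) (by positivity)
  obtain ⟨y₂, hmany⟩ := many_primes
  obtain ⟨Cs, hCs, y₃, hsur⟩ := survivors_e
  obtain ⟨c', hc', X₂, hana⟩ := LG.ana (y₀ := max y₂ y₃) hc (show 0 < 4 * Cs by positivity)
  obtain ⟨L₂, hL₂⟩ := ev_L c' (max L₁ y₁)
  refine ⟨c' / 2, by positivity, max (max X₁ X₂) (Real.exp (max L₂
    (Real.exp (Real.exp (Real.exp 2))))), fun Y hY I v hI hv hE => ?_⟩
  have hYX1 : X₁ ≤ Y := (le_max_left _ _).trans ((le_max_left _ _).trans hY)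
  have hYX2 : X₂ ≤ Y := (le_max_right _ _).trans ((le_max_left _ _).trans hY)
  have hYL2' : Real.exp (max L₂ (Real.exp (Real.exp (Real.exp 2)))) ≤ Y :=
    (le_max_right _ _).trans hY
  have hYL2 : Real.exp L₂ ≤ Y := (Real.exp_le_exp.mpr (le_max_left _ _)).trans hYL2'
  have hYE : Real.exp (Real.exp (Real.exp (Real.exp 2))) ≤ Y :=
    (Real.exp_le_exp.mpr (le_max_right _ _)).trans hYL2'
  obtain ⟨a1, a2, a3, a4, a5, a6, a7, a8, a9, a10, -, -, -, -, -, -, a17⟩ :=
    hana Y hYX2 _ _ rfl rfl _ rfl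
  have hY0 : 0 < Y := by linarith
  set L : ℝ := Real.log Y with hL
  have hLL2 : L₂ ≤ L := by
    rw [hL, Real.le_log_iff_exp_le hY0]
    exact hYL2
  obtain ⟨b1, b2, b3, b4, b5, b6, b7⟩ := hL₂ L hLL2
  have hLL1 : L₁ ≤ L := (le_max_left _ _).trans b5
  have hLy1 : y₁ ≤ L := (le_max_right _ _).trans b5
  set y : ℝ := L / 10 with hy
  set F : ℝ := c' * Pool.Agent.H256R2.SC.ff Y with hF
  set T₀ : ℕ := ⌊F⌋₊ with hT₀
  have hT₀y : 3 ≤ (T₀ : ℝ) := by linarith
  have hT₀n : 3 ≤ T₀ := by exact_mod_cast hT₀y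
  set T : ℕ := T₀ - 1 with hT
  have hTT₀ : T + 1 = T₀ := by omega
  have hTT₀r : (T : ℝ) + 1 = (T₀ : ℝ) := by exact_mod_cast hTT₀
  have hL0 : 0 < L := by linarith
  have hYexp : Y = Real.exp L := (Real.exp_log hY0).symm
  have hrp : 0 < L ^ (9 / 10 : ℝ) := Real.rpow_pos_of_pos hL0 _
  -- T is small
  have hTL : (T : ℝ) ≤ L ^ (11 / 10 : ℝ) := by
    have hTF : (T : ℝ) ≤ F := by linarith
    refine hTF.trans ?_
    have h1 : Pool.Agent.H256R2.SC.ff Y ≤ L * (Real.log L) ^ 3 := by
      unfold Pool.Agent.H256R2.SC.ff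
      rw [← hL]
      have hl0 : 0 < Real.log L := by linarith
      by_cases h3 : 1 ≤ Real.log (Real.log L)
      · have h4 : Real.log (Real.log (Real.log L)) ≤ Real.log L := by
          have e1 := Real.log_le_sub_one_of_pos (show 0 < Real.log (Real.log L) by linarith)
          have e2 := Real.log_le_sub_one_of_pos hl0
          linarith
        have h5 : 0 ≤ Real.log (Real.log (Real.log L)) := Real.log_nonneg h3
        rw [div_le_iff₀ (by positivity)]
        have h6 : 1 ≤ (Real.log (Real.log L)) ^ 2 := one_le_pow₀ h3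
        calc L * (Real.log L) ^ 2 * Real.log (Real.log (Real.log L)) ≤
              L * (Real.log L) ^ 2 * Real.log L := by gcongr
          _ = L * (Real.log L) ^ 3 * 1 := by ring
          _ ≤ _ := by gcongr
      · exfalso
        push Not at h3
        rw [Real.log_lt_iff_lt_exp hl0] at h3
        have := Real.exp_one_lt_d9
        linarith
    have h2 : L ^ (11 / 10 : ℝ) = L * L ^ (1 / 10 : ℝ) := by
      rw [← Real.rpow_one_add' hL0.le (by norm_num)]
      norm_num
    rw [h2, hF]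
    calc c' * Pool.Agent.H256R2.SC.ff Y ≤ c' * (L * (Real.log L) ^ 3) := by gcongr
      _ = L * (c' * (Real.log L) ^ 3) := by ring
      _ ≤ L * L ^ (1 / 10 : ℝ) := by gcongr
  have hTL2 : (T : ℝ) ≤ L * L / 200 := by
    have h1 : L ^ (11 / 10 : ℝ) ≤ L * L ^ (9 / 10 : ℝ) := by
      rw [← Real.rpow_one_add' hL0.le (by norm_num)]
      exact Real.rpow_le_rpow_of_exponent_le (by linarith) (by norm_num)
    have h2 : L * L ^ (9 / 10 : ℝ) ≤ L * (L / 200) := by
      apply mul_le_mul_of_nonneg_left _ hL0.le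
      linarith
    linarith
  -- logarithms of y
  have hly0 : Real.log y = Real.log L - Real.log 10 := by
    rw [hy, Real.log_div hL0.ne' (by norm_num)]
  have hl10 := LG.log10_lt
  have hly : 97 ≤ Real.log y := by rw [hly0]; linarith
  have hly' : Real.log y ≤ Real.log L := by
    rw [hly0]
    have : 0 < Real.log 10 := Real.log_pos (by norm_num)
    linarith
  have hlly : 1 ≤ Real.log (Real.log y) := by
    rw [Real.le_log_iff_exp_le (by linarith)]
    have := Real.exp_one_lt_d9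
    linarith
  have hy0 : 0 < y := by positivity
  have hzy : zR y ≤ y := zR_le hy0 (by linarith) hlly
  -- powers
  have hL1 : 1 ≤ L := by linarith
  have hL3L : L ≤ L ^ 3 := le_self_pow₀ hL1 (by norm_num)
  have hexp3 : Real.exp 3 ≤ L ^ 3 := by
    have e1 : Real.exp 3 = (Real.exp 1) ^ 3 := by
      rw [← Real.exp_nat_mul]; norm_num
    rw [e1]
    have := Real.exp_one_lt_d9
    exact pow_le_pow_left₀ (Real.exp_pos _).le (by linarith) 3
  -- the bad shifts
  obtain ⟨𝓑, h𝓑1, h𝓑2⟩ := hfew L hLL1 T hTL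
  set Bad : Finset ℤ := 𝓑.filter (fun u => u ≠ 0 ∧ u ≠ -1 ∧ |u| ≤ (T : ℤ)) with hBad
  have hBadc : (Bad.card : ℝ) ≤ L ^ (9 / 10 : ℝ) := by
    refine le_trans ?_ h𝓑1
    exact_mod_cast card_le_card (filter_subset _ _)
  obtain ⟨pu, hpu, hinj⟩ := exists_inj_choice Bad
    (fun u => (Finset.Icc 1 ⌊y ^ 9⌋₊).filter (fun p : ℕ => p.Prime ∧ y < (p : ℝ) ∧
      ∃ t : ℤ, (p : ℤ) ∣ t ^ 2 + u)) (by
      intro u hu
      rw [hBad, mem_filter] at hu
      have h1 : |(u : ℝ)| ≤ y ^ 2 := by
        have e1 : |(u : ℝ)| ≤ (T : ℝ) := by exact_mod_cast hu.2.2.2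
        refine e1.trans (hTL2.trans ?_)
        have e2 : y ^ 2 = L * L / 100 := by rw [hy]; ring
        rw [e2]
        have e3 : 0 < L * L := mul_pos hL0 hL0
        linarith
      have h2 := hmany y ((le_max_left _ _).trans a3) u hu.2.1 hu.2.2.1 h1
      have h3 : (Bad.card : ℝ) ≤ y / 20 := by
        rw [hy]
        linarith
      exact_mod_cast h3.trans h2)
  have hpu' : ∀ u ∈ Bad, (pu u).Prime ∧ y < (pu u : ℝ) ∧ (pu u : ℝ) ≤ y ^ 9 ∧
      ∃ t : ℤ, (pu u : ℤ) ∣ t ^ 2 + u := by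
    intro u hu
    have h1 := hpu u hu
    rw [mem_filter, mem_Icc] at h1
    refine ⟨h1.2.1, h1.2.2.1, ?_, h1.2.2.2⟩
    calc (pu u : ℝ) ≤ (⌊y ^ 9⌋₊ : ℝ) := by exact_mod_cast h1.1.2
      _ ≤ y ^ 9 := Nat.floor_le (by positivity)
  have hy1 : 1 ≤ y := by rw [hy]; linarith
  have hhalf : Real.exp (L / 100) ≤ Y / 2 := by
    have h1 : Real.exp (L / 100) * Real.exp 1 ≤ Y := by
      rw [← Real.exp_add, hYexp]
      apply Real.exp_le_exp.mpr
      linarith
    have h2 : (2 : ℝ) ≤ Real.exp 1 := by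
      have := Real.exp_one_gt_d9
      linarith
    have h3 : Real.exp (L / 100) * 2 ≤ Real.exp (L / 100) * Real.exp 1 :=
      mul_le_mul_of_nonneg_left h2 (Real.exp_pos _).le
    linarith
  have hy9 : y ^ 9 ≤ Y / 2 := by
    have e1 : y ^ 9 = Real.exp (9 * Real.log y) := by
      rw [show (9:ℝ) = ((9:ℕ):ℝ) by norm_num, Real.exp_nat_mul, Real.exp_log hy0]
    rw [e1]
    refine le_trans (Real.exp_le_exp.mpr ?_) hhalf
    have e2 : (1:ℝ) ≤ L ^ (9 / 10 : ℝ) := Real.one_le_rpow hL1 (by norm_num)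
    have e3 : 900 * Real.log L * 1 ≤ 900 * Real.log L * L ^ (9 / 10 : ℝ) := by
      apply mul_le_mul_of_nonneg_left e2
      linarith
    linarith
  have hquad : (T : ℝ) ≤ Y / 100 := by
    have h1 := Real.quadratic_le_exp_of_nonneg hL0.le
    rw [← hYexp] at h1
    have h2 : L ^ 2 = L * L := by ring
    rw [h2] at h1
    linarith
  have hYbig : 1000 ≤ Y := by
    have h1 := Real.add_one_le_exp L
    rw [← hYexp] at h1
    linarith
  -- apply the arithmetic core
  obtain ⟨i, hi, hm4, hm3⟩ := lin_arith_fam (c₂ := c₂ / 3) (c := c) (Y := Y)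
    (fun B κ _ _ _ => hcov Y hYX1 B κ) a1 (y := y) a4 hzy
    (by
      rw [← hL]
      have : y ≤ L := by rw [hy]; linarith
      linarith)
    (by rw [← hL]; exact hexp3) (T := T) (by omega)
    (by
      rw [← hL]
      have h0 : (0 : ℝ) ≤ (T : ℝ) := Nat.cast_nonneg T
      have h1 : (T : ℝ) ^ 2 ≤ (L ^ (11 / 10 : ℝ)) ^ 2 := pow_le_pow_left₀ h0 hTL 2
      have h2 : (L ^ (11 / 10 : ℝ)) ^ 2 = L ^ 2 * L ^ (2 / 10 : ℝ) := by
        rw [← Real.rpow_natCast, ← Real.rpow_mul hL0.le, ← Real.rpow_natCast, ← Real.rpow_add hL0]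
        norm_num
      have h3 : L ^ (2 / 10 : ℝ) ≤ L ^ (9 / 10 : ℝ) :=
        Real.rpow_le_rpow_of_exponent_le hL1 (by norm_num)
      have h4 : L ^ 2 * L ^ (2 / 10 : ℝ) ≤ L ^ 2 * (L / 200) := by
        apply mul_le_mul_of_nonneg_left _ (by positivity)
        linarith
      have h5 : L ^ 2 * (L / 200) = L ^ 3 / 200 := by ring
      have h6 : 0 < L ^ 3 := by positivity
      rw [h2] at h1
      rw [h5] at h4
      linarith)
    Bad pu (y ^ 9) (Y / 2) (one_le_pow₀ hy1) hpu' hinj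
    (by
      intro u hu0 husq huT huB z x hx hxz hz
      rw [← hL] at hx hz ⊢
      have hu1 : u ≠ -1 := by
        rintro rfl
        exact husq ⟨1, by norm_num⟩
      have huB' : u ∉ 𝓑 := fun h => huB (by
        rw [hBad, mem_filter]
        exact ⟨h, hu0, hu1, huT⟩)
      have h1 := hRL (L ^ 3) z (Bad.image pu) (gk u) (hLy1.trans hL3L) (gk_bound u) (by
        intro w hw1 hw2
        have h2 := h𝓑2 u hu0 huT huB' w hw1 (hw2.trans hz)
        have h3 := sum_remove u (Y3 := L ^ 3) (w := w) (by positivity) (Bad.image pu) (by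
          have e1 : ((Bad.image pu).card : ℝ) ≤ (Bad.card : ℝ) := by
            exact_mod_cast card_image_le
          have e2 : 2 * (Bad.card : ℝ) ≤ L := by linarith
          linarith)
        linarith) x hx hxz
      have h2 : Real.log (L ^ 3) = 3 * Real.log L := by
        rw [Real.log_pow]
        norm_num
      rw [h2] at h1
      have h3 : c₂ / 3 * Real.log x / Real.log L = c₂ * Real.log x / (3 * Real.log L) := by
        have : Real.log L ≠ 0 := by linarith
        field_simp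
      rw [h3]
      exact h1)
    (by
      intro z x hx hxz hz
      rw [← hL] at hx hz ⊢
      have h1 := hRL (L ^ 3) z (Bad.image pu) (gk 0) (hLy1.trans hL3L) (gk_bound 0) (by
        intro w hw1 hw2
        have h2 := hmer (L ^ 3) w (by linarith) hw1
        have h3 := sum_remove 0 (Y3 := L ^ 3) (w := w) (by positivity) (Bad.image pu) (by
          have e1 : ((Bad.image pu).card : ℝ) ≤ (Bad.card : ℝ) := by
            exact_mod_cast card_image_le
          have e2 : 2 * (Bad.card : ℝ) ≤ L := by linarith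
          linarith)
        have h4 : ∑ p ∈ SP (L ^ 3) w ∅, (1 : ℝ) / p =
            ∑ p ∈ SP (L ^ 3) w ∅, (rho 0 p : ℝ) / (p : ℝ) := by
          refine sum_congr rfl fun p hp => ?_
          unfold SP at hp
          rw [mem_filter] at hp
          rw [rho_zero hp.2.1]
          norm_num
        rw [h4] at h2
        linarith) x hx hxz
      have h2 : Real.log (L ^ 3) = 3 * Real.log L := by
        rw [Real.log_pow]
        norm_num
      rw [h2] at h1
      have h3 : c₂ / 3 * Real.log x / Real.log L = c₂ * Real.log x / (3 * Real.log L) := by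
        have : Real.log L ≠ 0 := by linarith
        field_simp
      rw [h3]
      exact h1)
    (by
      rw [← hL]
      refine (GP_card y T T₀ (by omega) Bad).trans ?_
      have h1 := hsur y ((le_max_right _ _).trans a3) T₀ a5 a7 (-1) (by norm_num)
      have h2 := hsur y ((le_max_right _ _).trans a3) T₀ a5 a7 1 (by norm_num)
      have e1 : ((-1 : ℤ)).natAbs.primeFactors = ∅ := by simp
      have e2 : ((1 : ℤ)).natAbs.primeFactors = ∅ := by simp
      rw [e1, Finset.prod_empty, mul_one] at h1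
      rw [e2, Finset.prod_empty, mul_one] at h2
      have h1' : ((SV y T₀ (-1)).card : ℝ) ≤ Cs * T₀ * (Real.log (Real.log y)) ^ 2 /
          ((Real.log y) ^ 2 * Real.log (Real.log (Real.log y))) := h1
      have h2' : ((SV y T₀ 1).card : ℝ) ≤ Cs * T₀ * (Real.log (Real.log y)) ^ 2 /
          ((Real.log y) ^ 2 * Real.log (Real.log (Real.log y))) := h2
      have h3 : 4 * Cs * (T₀ : ℝ) * (Real.log (Real.log y)) ^ 2 /
          ((Real.log y) ^ 2 * Real.log (Real.log (Real.log y))) =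
          2 * (Cs * T₀ * (Real.log (Real.log y)) ^ 2 /
          ((Real.log y) ^ 2 * Real.log (Real.log (Real.log y))) +
          Cs * T₀ * (Real.log (Real.log y)) ^ 2 /
          ((Real.log y) ^ 2 * Real.log (Real.log (Real.log y)))) := by ring
      rw [h3] at a8
      linarith)
    (exists_medium (by rw [hy]; linarith) hly hlly)
    (by
      have h1 := primorial_le_exp a4
      have h2 : (y ^ 9) ^ Bad.card ≤ Real.exp (L / 100) := by
        have e1 : (y ^ 9) ^ Bad.card = Real.exp (Bad.card * (9 * Real.log y)) := by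
          rw [Real.exp_nat_mul, show (9:ℝ) = ((9:ℕ):ℝ) by norm_num, Real.exp_nat_mul,
            Real.exp_log hy0]
        rw [e1]
        apply Real.exp_le_exp.mpr
        have e2 : (Bad.card : ℝ) * (9 * Real.log y) ≤ L ^ (9 / 10 : ℝ) * (9 * Real.log L) := by
          apply mul_le_mul hBadc (by linarith) (by linarith) hrp.le
        have e3 : L ^ (9 / 10 : ℝ) * (9 * Real.log L) =
            (900 * Real.log L * L ^ (9 / 10 : ℝ)) / 100 := by ring
        rw [e3] at e2
        linarith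
      have h3 : Y ^ (1 / 2 : ℝ) = Real.exp (L / 2) := by
        rw [Real.rpow_def_of_pos hY0]
        congr 1
        ring
      rw [h3]
      have h4 : (4 : ℝ) ≤ Real.exp 3 := by
        have := Real.add_one_le_exp (3 : ℝ)
        linarith
      calc 4 * ((primorial ⌊y⌋₊ : ℝ) * (y ^ 9) ^ Bad.card) ≤
            Real.exp 3 * (Real.exp (2 * y) * Real.exp (L / 100)) := by
              apply mul_le_mul h4 _ (by positivity) (Real.exp_pos _).le
              exact mul_le_mul h1 h2 (by positivity) (Real.exp_pos _).le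
        _ = Real.exp (3 + (2 * y + L / 100)) := by rw [Real.exp_add, Real.exp_add]
        _ ≤ Real.exp (L / 2) := by
              apply Real.exp_le_exp.mpr
              rw [hy]
              linarith)
    (by
      have e1 := Real.add_one_le_exp L
      rw [← hYexp] at e1
      rw [hy]
      linarith) hy9
    (by
      rw [← hL]
      exact (Real.exp_le_exp.mpr (by linarith)).trans hhalf)
    (by
      have h1 : Y ^ 2 = Y * Y := by ring
      have h2 : 1000 * Y ≤ Y * Y := mul_le_mul_of_nonneg_right hYbig hY0.le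
      rw [h1]
      linarith) (by linarith) (by linarith) I v hI hv hE
  have h0 : c' / 2 * Pool.Agent.H256R2.SC.ff Y = F / 2 := by rw [hF]; ring
  refine ⟨i, hi, fun q hq => ⟨?_, ?_⟩⟩
  · by_contra hcon
    push Not at hcon
    refine hm4 q ?_ hq
    have h1 : |(q : ℝ) - (v i : ℝ)| = ((((q : ℤ) - (v i)).natAbs : ℕ) : ℝ) := by
      rw [Nat.cast_natAbs]
      push_cast
      rfl
    rw [h0, h1] at hcon
    have h2 : ((q : ℤ) - (v i)).natAbs ≤ T := by
      have h3 : F < (T₀ : ℝ) + 1 := Nat.lt_floor_add_one F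
      have h4 : ((((q : ℤ) - (v i)).natAbs : ℕ) : ℝ) < (T : ℝ) + 1 := by linarith
      have h5 : ((q : ℤ) - (v i)).natAbs < T + 1 := by exact_mod_cast h4
      omega
    rw [Int.abs_eq_natAbs]
    exact_mod_cast h2
  · by_contra hcon
    push Not at hcon
    refine hm3 q ?_ hq
    have h1 : |(q : ℝ) - (v i : ℝ) ^ 2| = ((((q : ℤ) - (v i) ^ 2).natAbs : ℕ) : ℝ) := by
      rw [Nat.cast_natAbs]
      push_cast
      rfl
    rw [h0, h1] at hcon
    have h2 : ((q : ℤ) - (v i) ^ 2).natAbs ≤ T := by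
      have h3 : F < (T₀ : ℝ) + 1 := Nat.lt_floor_add_one F
      have h4 : ((((q : ℤ) - (v i) ^ 2).natAbs : ℕ) : ℝ) < (T : ℝ) + 1 := by linarith
      have h5 : ((q : ℤ) - (v i) ^ 2).natAbs < T + 1 := by exact_mod_cast h4
      omega
    rw [Int.abs_eq_natAbs]
    exact_mod_cast h2

end Pool.Agent.X67.QS
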