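import Pool.Agent.X164.MP.Prog
import Pool.Agent.W147.PS.Scale
import Pool.Agent.X67.QS.Main

set_option autoImplicit false
set_option linter.unusedSectionVars false

/-!
# Record gaps around the least residue and around its square, for pseudorandom families mod p

`equi` is extracted from `Pool.Agent.X164.MP.critP`.
-/

namespace Pool.Agent.X67.QS

open Finset Filter
open Pool.Agent.X164.MP
open Pool.Agent.H256R2.SC (ff)

theorem prod_close (r : ℕ) (a : Fin r → ℝ) (b τ : ℝ) (ha0 : ∀ j, 0 ≤ a j) (ha1 : ∀ j, a j ≤ 1)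
    (hb0 : 0 ≤ b) (hb1 : b ≤ 1) (h : ∀ j, |a j - b| ≤ τ) : |∏ j, a j - b ^ r| ≤ r * τ := by
  induction r with
  | zero => simp
  | succ r ih =>
    have h1 := ih (fun j => a j.succ) (fun j => ha0 _) (fun j => ha1 _) (fun j => h _)
    have h2 : 0 ≤ ∏ j : Fin r, a j.succ := Finset.prod_nonneg fun j _ => ha0 _
    have h3 : ∏ j : Fin r, a j.succ ≤ 1 := Finset.prod_le_one (fun j _ => ha0 _) fun j _ => ha1 _
    rw [Fin.prod_univ_succ, pow_succ']
    have e : a 0 * ∏ j : Fin r, a j.succ - b * b ^ r =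
        (a 0 - b) * ∏ j : Fin r, a j.succ + b * (∏ j : Fin r, a j.succ - b ^ r) := by ring
    rw [e]
    refine (abs_add_le _ _).trans ?_
    rw [abs_mul, abs_mul, abs_of_nonneg h2, abs_of_nonneg hb0]
    have h4 := h 0
    have g1 : |a 0 - b| * ∏ j : Fin r, a j.succ ≤ τ * 1 :=
      mul_le_mul h4 h3 h2 ((abs_nonneg _).trans h4)
    have g2 : b * |∏ j : Fin r, a j.succ - b ^ r| ≤ 1 * (r * τ) :=
      mul_le_mul hb1 h1 (abs_nonneg _) zero_le_one
    push_cast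
    linarith

set_option maxHeartbeats 4000000 in
theorem equi (r : ℕ) (hr : 1 ≤ r) (ε : ℝ) (hε : 0 < ε) : ∃ θ : ℝ, 0 < θ ∧ θ ≤ 1 / 8 ∧ ∃ p₀ : ℕ,
    ∀ (p : ℕ) [Fact p.Prime], p₀ ≤ p → ∀ (ι : Type) (s : Finset ι) (x : ι → Fin r → ZMod p),
      s.Nonempty → (∀ h : Fin r → ZMod p, h ≠ 0 →
        ‖∑ i ∈ s, (ZMod.stdAddChar (∑ j, h j * x i j) : ℂ)‖ ≤ s.card * (p : ℝ) ^ (-ε)) →
      ∃ s' : Finset ι, s' ⊆ s ∧ s'.Nonempty ∧
        (∀ i ∈ s', ∀ j, Real.sqrt p ≤ ((x i j).val : ℝ)) ∧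
        ∀ q : ℕ, 1 ≤ q → (q : ℝ) ≤ (p : ℝ) ^ θ → ∀ ρ : Fin r → ℤ,
          |((s'.filter (fun i => ∀ j, (q : ℤ) ∣ ((x i j).val : ℤ) - ρ j)).card : ℝ) -
            s'.card / (q : ℝ) ^ r| ≤ s'.card * ((p : ℝ) ^ θ) ^ (-(2 * (r : ℝ))) := by
  classical
  have hrR : (1 : ℝ) ≤ r := by exact_mod_cast hr
  set δ : ℝ := min ε 1 with hδ
  have hδ0 : 0 < δ := lt_min hε one_pos
  have hδε : δ ≤ ε := min_le_left _ _
  have hδ1 : δ ≤ 1 := min_le_right _ _
  set θ : ℝ := δ / (8 * r) with hθ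
  have hθ0 : 0 < θ := by positivity
  have hθr : (r : ℝ) * θ = δ / 8 := by rw [hθ]; field_simp
  have hθ1 : θ ≤ 1 / 8 := by
    rw [hθ, div_le_div_iff₀ (by positivity) (by norm_num)]
    nlinarith
  have ev3 : ∀ᶠ M : ℝ in atTop, 5 + Real.log M ≤ M ^ θ := by
    have h := (isLittleO_log_rpow_atTop hθ0).def (show (0 : ℝ) < 1 / 2 by norm_num)
    filter_upwards [h, eventually_ge_atTop (1 : ℝ),
      (tendsto_rpow_atTop hθ0).eventually_ge_atTop 10] with M h1 h2 h3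
    rw [Real.norm_eq_abs, abs_of_nonneg (Real.log_nonneg h2), Real.norm_eq_abs,
      abs_of_nonneg (by positivity)] at h1
    linarith
  have ev4 := Pool.Agent.W147.PS.ev_pow (δ / 8) (δ / 2) (2 ^ (r + 2) * (r + 1)) (by linarith)
  obtain ⟨M₀, hM₀⟩ := eventually_atTop.1 (ev3.and ev4)
  refine ⟨θ, hθ0, hθ1, max ⌈M₀⌉₊ 16, ?_⟩
  intro p _ hp ι s x hs hx
  have hpp : p.Prime := Fact.out
  have : NeZero p := ⟨hpp.ne_zero⟩
  have hp16 : 16 ≤ p := (le_max_right _ _).trans hp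
  have hp1R : (1 : ℝ) < p := by exact_mod_cast hpp.one_lt
  have hp0R : (0 : ℝ) < p := by linarith
  have hpM : M₀ ≤ p := (Nat.le_ceil _).trans (by exact_mod_cast (le_max_left _ _).trans hp)
  obtain ⟨E3, E4⟩ := hM₀ p hpM
  set X : ℝ := (p : ℝ) ^ θ with hX
  have hX1 : 1 ≤ X := Real.one_le_rpow hp1R.le hθ0.le
  have hX0 : 0 < X := by linarith
  have hXp : X ≤ p := by
    calc X ≤ (p : ℝ) ^ (1 : ℝ) := Real.rpow_le_rpow_of_exponent_le hp1R.le (by linarith)
      _ = p := Real.rpow_one _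
  have hXp2 : X ≤ (p : ℝ) ^ 2 := hXp.trans (by nlinarith)
  set L : ℕ := Nat.sqrt p with hL
  have hL2 : L * L ≤ p := Nat.sqrt_le p
  have hL3 : p < (L + 1) * (L + 1) := Nat.lt_succ_sqrt p
  have hL4 : 4 * L ≤ p := by
    have : 4 ≤ L := by
      rw [hL]
      exact Nat.le_sqrt.2 (by omega)
    calc 4 * L ≤ L * L := Nat.mul_le_mul_right _ this
      _ ≤ p := hL2
  have hLp : L < p := by omega
  set β : ℝ := ((p : ℝ) - 1 - L) / p with hβ
  have hL4R : 4 * (L : ℝ) ≤ p := by exact_mod_cast hL4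
  have hp16R : (16 : ℝ) ≤ p := by exact_mod_cast hp16
  have hβ1 : 1 / 2 ≤ β := by
    rw [hβ, le_div_iff₀ hp0R]
    linarith
  have hβ2 : β ≤ 1 := by
    rw [hβ, div_le_one hp0R]
    have : (0 : ℝ) ≤ L := Nat.cast_nonneg _
    linarith
  set S : ℝ := (s.card : ℝ) with hS
  have hS0 : 0 < S := by
    rw [hS]
    exact_mod_cast hs.card_pos
  set Λ : ℝ := 5 + Real.log p with hΛ
  have hΛ0 : 0 ≤ Λ := by
    have : 0 ≤ Real.log p := Real.log_nonneg hp1R.le
    linarith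
  set η : ℝ := r / p + (p : ℝ) ^ (-ε) * Λ ^ r with hη
  have hη0 : 0 ≤ η := by positivity
  -- the number of points in a box of classes
  have key : ∀ q : ℕ, 1 ≤ q → q < p → ∀ ρ : Fin r → ℤ,
      |((s.filter (fun i => ∀ j, x i j ∈ cls p L q (ρ j))).card : ℝ) - S * (β / q) ^ r| ≤
        S * η := by
    intro q hq hqp ρ
    have hqR : (1 : ℝ) ≤ q := by exact_mod_cast hq
    have h1 := count r s x (B := S * (p : ℝ) ^ (-ε)) (Λ := Λ) (by positivity) hx
      (fun j => cls p L q (ρ j)) (fun j => cls_fc hLp hq hqp (ρ j))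
    have h2 := prod_close r (fun j => ((cls p L q (ρ j)).card : ℝ) / p) (β / q) (1 / p)
      (fun j => by positivity) (fun j => by
        rw [div_le_one hp0R]
        have : (cls p L q (ρ j)).card ≤ p := by
          have := Finset.card_le_univ (cls p L q (ρ j))
          rwa [ZMod.card] at this
        exact_mod_cast this) (by positivity) (by
        rw [div_le_one (by linarith)]
        linarith) (fun j => by
        have h3 := cls_card hLp hq hqp (ρ j)
        have e : ((cls p L q (ρ j)).card : ℝ) / p - β / q =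
            (((cls p L q (ρ j)).card : ℝ) - ((p : ℝ) - 1 - L) / q) / p := by
          rw [hβ]
          field_simp
        rw [e, abs_div, abs_of_pos hp0R]
        exact div_le_div_of_nonneg_right h3 hp0R.le)
    have h3 : |S * ∏ j, ((cls p L q (ρ j)).card : ℝ) / p - S * (β / q) ^ r| ≤ S * (r * (1 / p)) := by
      rw [← mul_sub, abs_mul, abs_of_pos hS0]
      exact mul_le_mul_of_nonneg_left h2 hS0.le
    have h4 := abs_sub_le ((s.filter (fun i => ∀ j, x i j ∈ cls p L q (ρ j))).card : ℝ)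
      (S * ∏ j, ((cls p L q (ρ j)).card : ℝ) / p) (S * (β / q) ^ r)
    have h5 : S * (p : ℝ) ^ (-ε) * Λ ^ r + S * (r * (1 / p)) = S * η := by
      rw [hη]
      ring
    linarith
  -- the size of the error
  have hηb : 2 ^ (r + 2) * η ≤ (p : ℝ) ^ (-(δ / 2)) := by
    have g1 : (p : ℝ) ^ (-ε) ≤ (p : ℝ) ^ (-δ) :=
      Real.rpow_le_rpow_of_exponent_le hp1R.le (by linarith)
    have g2 : Λ ^ r ≤ (p : ℝ) ^ (δ / 8) := by
      calc Λ ^ r ≤ ((p : ℝ) ^ θ) ^ r := pow_le_pow_left₀ hΛ0 E3 r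
        _ = (p : ℝ) ^ (δ / 8) := by
            rw [← Real.rpow_natCast, ← Real.rpow_mul hp0R.le, mul_comm θ, hθr]
    have g3 : (1 : ℝ) ≤ (p : ℝ) ^ (δ / 8) := Real.one_le_rpow hp1R.le (by positivity)
    have g4 : (r : ℝ) / p ≤ (p : ℝ) ^ (-δ) * (r * (p : ℝ) ^ (δ / 8)) := by
      have : (p : ℝ)⁻¹ ≤ (p : ℝ) ^ (-δ) := by
        rw [← Real.rpow_neg_one]
        exact Real.rpow_le_rpow_of_exponent_le hp1R.le (by linarith)
      calc (r : ℝ) / p = (p : ℝ)⁻¹ * (r * 1) := by rw [div_eq_mul_inv]; ring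
        _ ≤ (p : ℝ) ^ (-δ) * (r * (p : ℝ) ^ (δ / 8)) :=
            mul_le_mul this (mul_le_mul_of_nonneg_left g3 (by positivity)) (by positivity)
              (by positivity)
    have g5 : (p : ℝ) ^ (-ε) * Λ ^ r ≤ (p : ℝ) ^ (-δ) * (p : ℝ) ^ (δ / 8) :=
      mul_le_mul g1 g2 (by positivity) (by positivity)
    have g6 : η ≤ (p : ℝ) ^ (-δ) * ((r + 1) * (p : ℝ) ^ (δ / 8)) := by
      rw [hη]
      linarith
    calc 2 ^ (r + 2) * η ≤ 2 ^ (r + 2) * ((p : ℝ) ^ (-δ) * ((r + 1) * (p : ℝ) ^ (δ / 8))) :=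
          mul_le_mul_of_nonneg_left g6 (by positivity)
      _ = (p : ℝ) ^ (-δ) * (2 ^ (r + 2) * (r + 1) * (p : ℝ) ^ (δ / 8)) := by ring
      _ ≤ (p : ℝ) ^ (-δ) * (p : ℝ) ^ (δ / 2) := mul_le_mul_of_nonneg_left E4 (by positivity)
      _ = (p : ℝ) ^ (-(δ / 2)) := by
          rw [← Real.rpow_add hp0R]
          congr 1
          ring
  have hone : (p : ℝ) ^ (-(δ / 2)) ≤ 1 := Real.rpow_le_one_of_one_le_of_nonpos hp1R.le (by linarith)
  have hXr : (p : ℝ) ^ (-(δ / 2)) ≤ X ^ (-(2 * (r : ℝ))) := by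
    rw [hX, ← Real.rpow_mul hp0R.le]
    refine Real.rpow_le_rpow_of_exponent_le hp1R.le ?_
    have : θ * -(2 * (r : ℝ)) = -(δ / 4) := by
      have : θ * -(2 * (r : ℝ)) = -2 * (r * θ) := by ring
      rw [this, hθr]
      ring
    rw [this]
    linarith
  -- the points above `L`
  set s' := s.filter (fun i => ∀ j, L < (x i j).val) with hs'
  have hs'eq : s' = s.filter (fun i => ∀ j, x i j ∈ cls p L 1 ((fun _ => 0 : Fin r → ℤ) j)) := by
    rw [hs']
    refine Finset.filter_congr fun i _ => ?_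
    constructor
    · intro h j
      exact mem_cls.2 ⟨h j, by simp⟩
    · intro h j
      exact (mem_cls.1 (h j)).1
  have h1 := key 1 le_rfl hpp.one_lt (fun _ => 0)
  rw [← hs'eq, Nat.cast_one, div_one] at h1
  have h2r : (0 : ℝ) < 2 ^ r := by positivity
  have hβr : 1 / 2 ^ r ≤ β ^ r := by
    rw [← one_div_pow]
    exact pow_le_pow_left₀ (by norm_num) hβ1 r
  have hηs : η * (4 * 2 ^ r) ≤ 1 := by
    have : 2 ^ (r + 2) * η = η * (4 * 2 ^ r) := by ring
    rw [← this]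
    exact hηb.trans hone
  have hs'big : S * (1 / (2 * 2 ^ r)) ≤ (s'.card : ℝ) := by
    have g1 := (abs_le.1 h1).1
    have g2 : S * (1 / 2 ^ r) ≤ S * β ^ r := mul_le_mul_of_nonneg_left hβr hS0.le
    have g3 : S * η ≤ S * (1 / (4 * 2 ^ r)) := by
      refine mul_le_mul_of_nonneg_left ?_ hS0.le
      rw [le_div_iff₀ (by positivity)]
      exact hηs
    have g4 : S * (1 / (2 * 2 ^ r)) + S * (1 / (4 * 2 ^ r)) ≤ S * (1 / 2 ^ r) := by
      have e1 : S * (1 / (2 * 2 ^ r)) = S * (1 / 2 ^ r) / 2 := by field_simp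
      have e2 : S * (1 / (4 * 2 ^ r)) = S * (1 / 2 ^ r) / 4 := by field_simp
      have e3 : 0 ≤ S * (1 / 2 ^ r) := by positivity
      rw [e1, e2]
      linarith
    linarith
  have hs'0 : (0 : ℝ) < s'.card := lt_of_lt_of_le (by positivity) hs'big
  have hs'ne : s'.Nonempty := Finset.card_pos.1 (by exact_mod_cast hs'0)
  refine ⟨s', Finset.filter_subset _ _, hs'ne, ?_, ?_⟩
  · intro i hi j
    have g1 : L + 1 ≤ (x i j).val := (Finset.mem_filter.1 hi).2 j
    have g2 : Real.sqrt p ≤ (L : ℝ) + 1 := by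
      rw [Real.sqrt_le_left (by positivity)]
      have : (p : ℝ) ≤ ((L : ℝ) + 1) * (L + 1) := by exact_mod_cast hL3.le
      nlinarith
    have g3 : (L : ℝ) + 1 ≤ ((x i j).val : ℝ) := by exact_mod_cast g1
    linarith
  · intro q hq hqX ρ
    have hqp : q < p := by
      have g1 : (q : ℝ) < p := by
        refine hqX.trans_lt ?_
        calc X = (p : ℝ) ^ θ := hX
          _ < (p : ℝ) ^ (1 : ℝ) := Real.rpow_lt_rpow_of_exponent_lt hp1R (by linarith)
          _ = p := Real.rpow_one _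
      exact_mod_cast g1
    have hqR : (1 : ℝ) ≤ q := by exact_mod_cast hq
    have hqr : (1 : ℝ) ≤ (q : ℝ) ^ r := one_le_pow₀ hqR
    have heq : s'.filter (fun i => ∀ j, (q : ℤ) ∣ ((x i j).val : ℤ) - ρ j) =
        s.filter (fun i => ∀ j, x i j ∈ cls p L q (ρ j)) := by
      rw [hs', Finset.filter_filter]
      refine Finset.filter_congr fun i _ => ?_
      constructor
      · rintro ⟨g1, g2⟩ j
        exact mem_cls.2 ⟨g1 j, g2 j⟩
      · intro h
        exact ⟨fun j => (mem_cls.1 (h j)).1, fun j => (mem_cls.1 (h j)).2⟩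
    rw [heq]
    have h3 := key q hq hqp ρ
    have h4 : |S * (β / q) ^ r - (s'.card : ℝ) / (q : ℝ) ^ r| ≤ S * η := by
      have e : S * (β / q) ^ r - (s'.card : ℝ) / (q : ℝ) ^ r =
          -((s'.card : ℝ) - S * β ^ r) / (q : ℝ) ^ r := by
        rw [div_pow]
        ring
      rw [e, abs_div, abs_neg, abs_of_pos (by positivity : (0 : ℝ) < (q : ℝ) ^ r)]
      exact (div_le_self (abs_nonneg _) hqr).trans h1
    have h5 := abs_sub_le ((s.filter (fun i => ∀ j, x i j ∈ cls p L q (ρ j))).card : ℝ)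
      (S * (β / q) ^ r) ((s'.card : ℝ) / (q : ℝ) ^ r)
    have h6 : 2 * (S * η) ≤ s'.card * X ^ (-(2 * (r : ℝ))) := by
      calc 2 * (S * η) = S * (1 / (2 * 2 ^ r)) * (2 ^ (r + 2) * η) := by
            rw [pow_add]
            field_simp
        _ ≤ s'.card * X ^ (-(2 * (r : ℝ))) :=
            mul_le_mul hs'big (hηb.trans hXr) (by positivity) hs'0.le
    linarith

/-- the criterion for a number and its square, arbitrary index sets -/
theorem critNS : ∃ c : ℝ, 0 < c ∧ ∃ Y₀ : ℝ, ∀ Y : ℝ, Y₀ ≤ Y →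
    ∀ (ι : Type) (s : Finset ι) (v : ι → ℤ), s.Nonempty → (∀ i ∈ s, Y ≤ (v i : ℝ)) →
    (∀ q : ℕ, 1 ≤ q → (q : ℝ) ≤ Y → ∀ ρ : ℤ,
      |((s.filter (fun i => (q : ℤ) ∣ v i - ρ)).card : ℝ) - s.card / (q : ℝ)| ≤
        s.card * Y ^ (-2 : ℝ)) →
    ∃ i ∈ s, ∀ q : ℕ, q.Prime → c * ff Y < |(q : ℝ) - (v i : ℝ)| ∧
      c * ff Y < |(q : ℝ) - (v i : ℝ) ^ 2| := by
  classical
  obtain ⟨c, hc, Y₀, h⟩ := number_square_fam
  refine ⟨c, hc, Y₀, fun Y hY ι s v hs hv hE => ?_⟩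
  obtain ⟨i₀, hi₀⟩ := hs
  haveI : Nonempty ι := ⟨i₀⟩
  set e : ι → ℤ := fun i => if h : i ∈ s then ((s.equivFin ⟨i, h⟩ : ℕ) : ℤ) else -1 with he
  have hinj : Set.InjOn e (s : Set ι) := by
    intro i hi j hj hij
    rw [Finset.mem_coe] at hi hj
    rw [he] at hij
    simp only [dif_pos hi, dif_pos hj] at hij
    have h1 : s.equivFin ⟨i, hi⟩ = s.equivFin ⟨j, hj⟩ := Fin.ext (by exact_mod_cast hij)
    have h2 := s.equivFin.injective h1
    exact congrArg Subtype.val h2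
  set f : ℤ → ι := Function.invFunOn e (s : Set ι) with hf
  have hfe : ∀ i ∈ s, f (e i) = i := fun i hi => hinj.leftInvOn_invFunOn (Finset.mem_coe.2 hi)
  have hcard : (s.image e).card = s.card := Finset.card_image_of_injOn hinj
  obtain ⟨a, ha, ha2⟩ := h Y hY (s.image e) (fun a => v (f a)) ⟨e i₀, Finset.mem_image_of_mem e hi₀⟩
    (by
      intro a ha
      obtain ⟨i, hi, rfl⟩ := Finset.mem_image.1 ha
      rw [hfe i hi]
      exact hv i hi)
    (by
      intro q hq hqY ρ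
      have h1 : ((s.image e).filter (fun a => (q : ℤ) ∣ v (f a) - ρ)).card =
          (s.filter (fun i => (q : ℤ) ∣ v i - ρ)).card := by
        rw [Finset.filter_image, Finset.card_image_of_injOn (hinj.mono (by
          intro i hi
          exact Finset.mem_coe.2 (Finset.mem_filter.1 (Finset.mem_coe.1 hi)).1))]
        congr 1
        refine Finset.filter_congr fun i hi => ?_
        rw [hfe i hi]
      rw [hcard]
      have h2 := hE q hq hqY ρ
      rw [← h1] at h2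
      exact h2)
  obtain ⟨i, hi, rfl⟩ := Finset.mem_image.1 ha
  refine ⟨i, hi, fun q hq => ?_⟩
  have h1 := ha2 q hq
  rw [hfe i hi] at h1
  exact h1

/-- the criterion for least residues and their squares -/
theorem critNP (ε : ℝ) (hε : 0 < ε) : ∃ κ : ℝ, 0 < κ ∧ ∃ p₀ : ℕ,
    ∀ (p : ℕ) [Fact p.Prime], p₀ ≤ p → ∀ (ι : Type) (s : Finset ι) (x : ι → ZMod p),
      s.Nonempty → (∀ h : ZMod p, h ≠ 0 →
        ‖∑ i ∈ s, (ZMod.stdAddChar (h * x i) : ℂ)‖ ≤ s.card * (p : ℝ) ^ (-ε)) →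
      ∃ i ∈ s, ∀ q : ℕ, q.Prime → κ * ff p < |(q : ℝ) - ((x i).val : ℝ)| ∧
        κ * ff p < |(q : ℝ) - ((x i).val : ℝ) ^ 2| := by
  obtain ⟨c, hc, Y₀, hcrit⟩ := critNS
  obtain ⟨θ, hθ0, hθ1, p₁, hequi⟩ := equi 1 le_rfl ε hε
  have ev1 := (tendsto_rpow_atTop hθ0).eventually_ge_atTop Y₀
  have ev2 := Pool.Agent.W147.PS.ff_compare θ hθ0 (by linarith)
  obtain ⟨M₀, hM₀⟩ := eventually_atTop.1 (ev1.and ev2)
  refine ⟨c * (θ / 32), by positivity, max p₁ ⌈M₀⌉₊, ?_⟩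
  intro p _ hp ι s x hs hx
  have hpp : p.Prime := Fact.out
  have hp1R : (1 : ℝ) < p := by exact_mod_cast hpp.one_lt
  have hp0R : (0 : ℝ) < p := by linarith
  have hpM : M₀ ≤ p := (Nat.le_ceil _).trans (by exact_mod_cast (le_max_right _ _).trans hp)
  obtain ⟨E1, -, E2⟩ := hM₀ p hpM
  set Y : ℝ := (p : ℝ) ^ θ with hY
  have hYs : Y ≤ Real.sqrt p := by
    rw [Real.sqrt_eq_rpow]
    exact Real.rpow_le_rpow_of_exponent_le hp1R.le (by linarith)
  have hYp : Y ≤ p := by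
    calc Y ≤ (p : ℝ) ^ (1 : ℝ) := Real.rpow_le_rpow_of_exponent_le hp1R.le (by linarith)
      _ = p := Real.rpow_one _
  have hYp2 : Y ≤ (p : ℝ) ^ 2 := hYp.trans (by nlinarith)
  obtain ⟨s', hs's, hs'ne, hval, heq⟩ := hequi p ((le_max_left _ _).trans hp) ι s
    (fun i _ => x i) hs (by
      intro h hh
      have h0 : h 0 ≠ 0 := by
        intro h0
        apply hh
        funext j
        rw [Subsingleton.elim j 0, h0]
        rfl
      simp only [Fin.sum_univ_one]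
      exact hx (h 0) h0)
  obtain ⟨i, hi, hi2⟩ := hcrit Y E1 ι s' (fun i => ((x i).val : ℤ)) hs'ne
    (by
      intro i hi
      have h1 := hval i hi 0
      push_cast
      exact hYs.trans h1)
    (by
      intro q hq hqY ρ
      have h1 := heq q hq hqY (fun _ => ρ)
      simp only [forall_const, pow_one, Nat.cast_one, mul_one] at h1
      exact h1)
  have hff : c * (θ / 32) * ff p ≤ c * ff Y := by
    have := (E2 Y le_rfl hYp2).1
    have e : c * (θ / 32) * ff p = c * (θ / 32 * ff p) := by ring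
    rw [e]
    exact mul_le_mul_of_nonneg_left this hc.le
  refine ⟨i, hs's hi, fun q hq => ?_⟩
  obtain ⟨h1, h2⟩ := hi2 q hq
  push_cast at h1 h2
  exact ⟨lt_of_le_of_lt hff h1, lt_of_le_of_lt hff h2⟩

end Pool.Agent.X67.QS
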