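import Pool.Agent.X67.QS.QsMain
import Pool.Agent.X67.QS.CritNP

set_option autoImplicit false
set_option linter.unusedSectionVars false

/-!
# Record gaps around consecutive squares and pronic numbers, for pseudorandom families mod p
-/

namespace Pool.Agent.X67.QS

open Finset Filter
open Pool.Agent.X164.MP
open Pool.Agent.H256R2.SC (ff)

/-- enumeration of a family by integers -/
theorem enum {ι : Type} (s : Finset ι) (v : ι → ℤ) (hs : s.Nonempty) :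
    ∃ (I : Finset ℤ) (f : ℤ → ι), I.Nonempty ∧ I.card = s.card ∧ (∀ a ∈ I, f a ∈ s) ∧
      ∀ q ρ : ℤ, (I.filter (fun a => q ∣ v (f a) - ρ)).card =
        (s.filter (fun i => q ∣ v i - ρ)).card := by
  classical
  obtain ⟨i₀, hi₀⟩ := hs
  have : Nonempty ι := ⟨i₀⟩
  set e : ι → ℤ := fun i => if h : i ∈ s then ((s.equivFin ⟨i, h⟩ : ℕ) : ℤ) else -1 with he
  have hinj : Set.InjOn e (s : Set ι) := by
    intro i hi j hj hij
    rw [Finset.mem_coe] at hi hj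
    rw [he] at hij
    simp only [dif_pos hi, dif_pos hj] at hij
    have h1 : s.equivFin ⟨i, hi⟩ = s.equivFin ⟨j, hj⟩ := Fin.ext (by exact_mod_cast hij)
    have h2 := s.equivFin.injective h1
    exact congrArg Subtype.val h2
  set f : ℤ → ι := Function.invFunOn e (s : Set ι) with hf
  have hfe : ∀ i ∈ s, f (e i) = i := fun i hi => hinj.leftInvOn_invFunOn (Finset.mem_coe.2 hi)
  refine ⟨s.image e, f, ⟨e i₀, Finset.mem_image_of_mem e hi₀⟩,
    Finset.card_image_of_injOn hinj, ?_, ?_⟩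
  · intro a ha
    obtain ⟨i, hi, rfl⟩ := Finset.mem_image.1 ha
    rw [hfe i hi]
    exact hi
  · intro q ρ
    rw [Finset.filter_image, Finset.card_image_of_injOn (hinj.mono (by
      intro i hi
      exact Finset.mem_coe.2 (Finset.mem_filter.1 (Finset.mem_coe.1 hi)).1))]
    congr 1
    refine Finset.filter_congr fun i hi => ?_
    rw [hfe i hi]

/-- the criterion for consecutive squares and pronic numbers, arbitrary index sets -/
theorem critQS : ∃ c : ℝ, 0 < c ∧ ∃ Y₀ : ℝ, ∀ Y : ℝ, Y₀ ≤ Y →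
    ∀ (ι : Type) (s : Finset ι) (v : ι → ℤ), s.Nonempty → (∀ i ∈ s, Y ≤ (v i : ℝ)) →
    (∀ q : ℕ, 1 ≤ q → (q : ℝ) ≤ Y → ∀ ρ : ℤ,
      |((s.filter (fun i => (q : ℤ) ∣ v i - ρ)).card : ℝ) - s.card / (q : ℝ)| ≤
        s.card * Y ^ (-2 : ℝ)) →
    ∀ J Z : ℕ, 1 ≤ J → Real.log Y ≤ (Z : ℝ) → (J : ℝ) * (Z : ℝ) ≤ c * ff Y →
    ∃ i ∈ s, ∀ j : ℕ, j < J → ∀ q : ℕ, q.Prime →
      (Z : ℝ) < |(q : ℝ) - ((v i : ℝ) + j) ^ 2| ∧
      (Z : ℝ) < |(q : ℝ) - ((v i : ℝ) + j) * ((v i : ℝ) + j + 1)| := by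
  obtain ⟨c, hc, Y₀, h⟩ := squares_pronics_fam
  refine ⟨c, hc, Y₀, fun Y hY ι s v hs hv hE J Z hJ hZ hJZ => ?_⟩
  obtain ⟨I, f, hI, hIc, hIs, hIf⟩ := enum s v hs
  obtain ⟨a, ha, ha2⟩ := h Y hY I (fun a => v (f a)) hI (fun a ha => hv _ (hIs a ha))
    (by
      intro q hq hqY ρ
      rw [hIf, hIc]
      exact hE q hq hqY ρ) J Z hJ hZ hJZ
  exact ⟨f a, hIs a ha, ha2⟩

/-- the criterion for least residues -/
theorem critQP (ε : ℝ) (hε : 0 < ε) : ∃ κ : ℝ, 0 < κ ∧ ∃ p₀ : ℕ,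
    ∀ (p : ℕ) [Fact p.Prime], p₀ ≤ p → ∀ (ι : Type) (s : Finset ι) (x : ι → ZMod p),
      s.Nonempty → (∀ h : ZMod p, h ≠ 0 →
        ‖∑ i ∈ s, (ZMod.stdAddChar (h * x i) : ℂ)‖ ≤ s.card * (p : ℝ) ^ (-ε)) →
      ∀ J Z : ℕ, 1 ≤ J → Real.log p ≤ (Z : ℝ) → (J : ℝ) * (Z : ℝ) ≤ κ * ff p →
      ∃ i ∈ s, ∀ j : ℕ, j < J → ∀ q : ℕ, q.Prime →
        (Z : ℝ) < |(q : ℝ) - (((x i).val : ℝ) + j) ^ 2| ∧
        (Z : ℝ) < |(q : ℝ) - (((x i).val : ℝ) + j) * (((x i).val : ℝ) + j + 1)| := by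
  obtain ⟨c, hc, Y₀, hcrit⟩ := critQS
  obtain ⟨θ, hθ0, hθ1, p₁, hequi⟩ := equi 1 le_rfl ε hε
  have ev1 := (tendsto_rpow_atTop hθ0).eventually_ge_atTop Y₀
  have ev2 := Pool.Agent.W147.PS.ff_compare θ hθ0 (by linarith)
  obtain ⟨M₀, hM₀⟩ := eventually_atTop.1 (ev1.and ev2)
  refine ⟨c * (θ / 32), by positivity, max p₁ ⌈M₀⌉₊, ?_⟩
  intro p _ hp ι s x hs hx J Z hJ hZ hJZ
  have hpp : p.Prime := Fact.out
  have hp1R : (1 : ℝ) < p := by exact_mod_cast hpp.one_lt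
  have hp0R : (0 : ℝ) < p := by linarith
  have hpM : M₀ ≤ p := (Nat.le_ceil _).trans (by exact_mod_cast (le_max_right _ _).trans hp)
  obtain ⟨E1, -, E2⟩ := hM₀ p hpM
  set Y : ℝ := (p : ℝ) ^ θ with hY
  have hYs : Y ≤ Real.sqrt p := by
    rw [Real.sqrt_eq_rpow]
    exact Real.rpow_le_rpow_of_exponent_le hp1R.le (by linarith)
  have hYp : Y ≤ p := by
    calc Y ≤ (p : ℝ) ^ (1 : ℝ) := Real.rpow_le_rpow_of_exponent_le hp1R.le (by linarith)
      _ = p := Real.rpow_one _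
  have hY0 : 0 < Y := by positivity
  have hYp2 : Y ≤ (p : ℝ) ^ 2 := hYp.trans (by nlinarith)
  obtain ⟨s', hs's, hs'ne, hval, heq⟩ := hequi p ((le_max_left _ _).trans hp) ι s
    (fun i _ => x i) hs (by
      intro h hh
      have h0 : h 0 ≠ 0 := by
        intro h0
        apply hh
        funext j
        rw [Subsingleton.elim j 0, h0]
        rfl
      simp only [Fin.sum_univ_one]
      exact hx (h 0) h0)
  have hff : c * (θ / 32) * ff p ≤ c * ff Y := by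
    have := (E2 Y le_rfl hYp2).1
    have e : c * (θ / 32) * ff p = c * (θ / 32 * ff p) := by ring
    rw [e]
    exact mul_le_mul_of_nonneg_left this hc.le
  obtain ⟨i, hi, hi2⟩ := hcrit Y E1 ι s' (fun i => ((x i).val : ℤ)) hs'ne
    (by
      intro i hi
      have h1 := hval i hi 0
      push_cast
      exact hYs.trans h1)
    (by
      intro q hq hqY ρ
      have h1 := heq q hq hqY (fun _ => ρ)
      simp only [forall_const, pow_one, Nat.cast_one, mul_one] at h1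
      exact h1) J Z hJ ((Real.log_le_log hY0 hYp).trans hZ) (hJZ.trans hff)
  refine ⟨i, hs's hi, fun j hj q hq => ?_⟩
  obtain ⟨h1, h2⟩ := hi2 j hj q hq
  push_cast at h1 h2
  exact ⟨h1, h2⟩

end Pool.Agent.X67.QS
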