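import Pool.Agent.X164.MP.Bil
import Pool.Agent.Y943.Fu.Sum

set_option autoImplicit false

/-!
# Exponential sums over sets with almost periods, geometric progressions, subgroups

The contents of `Pool.Agent.X67.GP` which do not depend on the criterion.
-/

namespace Pool.Agent.X67.QS

open Finset Polynomial Filter
open Pool.Agent.X164.MP
open Pool.Agent.Y943.Fu

section

variable {p : ℕ} [Fact p.Prime]

theorem norm_sum_psi (S : Finset (ZMod p)) (f : ZMod p → ZMod p) :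
    ‖∑ x ∈ S, (ZMod.stdAddChar (f x) : ℂ)‖ ≤ S.card := by
  refine (norm_sum_le _ _).trans ?_
  rw [Finset.sum_congr rfl fun x _ => norm_psi (f x), Finset.sum_const, nsmul_eq_mul, mul_one]

/-- replacing `x` by `b x` -/
theorem shift_one (G : (ZMod p)[X]) (S : Finset (ZMod p)) {b : ZMod p} (hb : b ≠ 0) {E : ℝ}
    (hE : ((S \ S.image (fun x => b * x)).card : ℝ) ≤ E) :
    ‖∑ x ∈ S, (ZMod.stdAddChar (G.eval x) : ℂ) -
      ∑ x ∈ S, (ZMod.stdAddChar (G.eval (x * b)) : ℂ)‖ ≤ 2 * E := by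
  classical
  set S' := S.image (fun x => b * x) with hS'
  have hinj : Function.Injective (fun x : ZMod p => b * x) := mul_right_injective₀ hb
  have h1 : ∑ x ∈ S, (ZMod.stdAddChar (G.eval (x * b)) : ℂ) =
      ∑ y ∈ S', (ZMod.stdAddChar (G.eval y) : ℂ) := by
    rw [hS', Finset.sum_image (fun x _ y _ h => hinj h)]
    exact Finset.sum_congr rfl fun x _ => by rw [mul_comm]
  have hcard : S'.card = S.card := Finset.card_image_of_injective _ hinj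
  have h2 : (S' \ S).card = (S \ S').card := Finset.card_sdiff_comm hcard
  rw [h1, ← Finset.sum_sdiff_sub_sum_sdiff]
  refine (norm_sub_le _ _).trans ?_
  have h3 := norm_sum_psi (S \ S') (fun x => G.eval x)
  have h4 := norm_sum_psi (S' \ S) (fun x => G.eval x)
  rw [h2] at h4
  linarith

/-- **sums over sets with almost periods** -/
theorem almost_inv {k : ℕ} (hkp : k < p) {ε : ℝ} (hε : 0 < ε)
    (hk2 : (2 : ℝ) * k ≤ (p : ℝ) ^ (ε / 4)) (h3 : (3 : ℝ) ≤ (p : ℝ) ^ (ε / 16))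
    (G : (ZMod p)[X]) (hG1 : 1 ≤ G.natDegree) (hGk : G.natDegree ≤ k) (S B : Finset (ZMod p))
    (hSB : (p : ℝ) ^ (1 + ε) ≤ S.card * B.card) (hle : B.card ≤ S.card)
    (hB : ∀ b ∈ B, b ≠ 0 ∧
      ((S \ S.image (fun x => b * x)).card : ℝ) ≤ (p : ℝ) ^ (-ε) * S.card) :
    ‖∑ x ∈ S, (ZMod.stdAddChar (G.eval x) : ℂ)‖ ≤ S.card * (p : ℝ) ^ (-(ε / 16)) := by
  classical
  have hpp : p.Prime := Fact.out
  have hp0 : (0 : ℝ) < p := by exact_mod_cast hpp.pos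
  have hp1 : (1 : ℝ) ≤ p := by exact_mod_cast hpp.one_lt.le
  have hSB0 : (0 : ℝ) < S.card * B.card := lt_of_lt_of_le (by positivity) hSB
  have hS0 : (0 : ℝ) < S.card := by
    rcases (Nat.cast_nonneg (α := ℝ) S.card).eq_or_lt with h0 | h0
    · rw [← h0, zero_mul] at hSB0
      exact absurd hSB0 (lt_irrefl _)
    · exact h0
  have hB0 : (0 : ℝ) < B.card := by
    rcases (Nat.cast_nonneg (α := ℝ) B.card).eq_or_lt with h0 | h0
    · rw [← h0, mul_zero] at hSB0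
      exact absurd hSB0 (lt_irrefl _)
    · exact h0
  set W : ℂ := ∑ x ∈ S, (ZMod.stdAddChar (G.eval x) : ℂ) with hW
  have h1 : ‖(B.card : ℂ) * W - ∑ x ∈ S, ∑ b ∈ B, (ZMod.stdAddChar (G.eval (x * b)) : ℂ)‖ ≤
      B.card * (2 * ((p : ℝ) ^ (-ε) * S.card)) := by
    have h2 : (B.card : ℂ) * W - ∑ x ∈ S, ∑ b ∈ B, (ZMod.stdAddChar (G.eval (x * b)) : ℂ) =
        ∑ b ∈ B, (W - ∑ x ∈ S, (ZMod.stdAddChar (G.eval (x * b)) : ℂ)) := by
      rw [Finset.sum_comm, Finset.sum_sub_distrib, Finset.sum_const, nsmul_eq_mul]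
    rw [h2]
    refine (norm_sum_le _ _).trans ((Finset.sum_le_sum fun b hb =>
      shift_one G S (hB b hb).1 (hB b hb).2).trans (le_of_eq ?_))
    rw [Finset.sum_const, nsmul_eq_mul]
  have h2 := bilin_saving hkp hε hk2 G hG1 hGk S B hSB hle
  have h4 : (B.card : ℝ) * ‖W‖ ≤ B.card * (2 * ((p : ℝ) ^ (-ε) * S.card)) +
      (S.card * B.card : ℝ) * (p : ℝ) ^ (-(ε / 8)) := by
    have h5 : (B.card : ℝ) * ‖W‖ = ‖(B.card : ℂ) * W‖ := by
      rw [norm_mul, Complex.norm_natCast]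
    rw [h5]
    calc ‖(B.card : ℂ) * W‖ = ‖((B.card : ℂ) * W -
          ∑ x ∈ S, ∑ b ∈ B, (ZMod.stdAddChar (G.eval (x * b)) : ℂ)) +
          ∑ x ∈ S, ∑ b ∈ B, (ZMod.stdAddChar (G.eval (x * b)) : ℂ)‖ := by rw [sub_add_cancel]
      _ ≤ _ := (norm_add_le _ _).trans (add_le_add h1 h2)
  have h5 : ‖W‖ ≤ 2 * ((p : ℝ) ^ (-ε) * S.card) + S.card * (p : ℝ) ^ (-(ε / 8)) := by
    have : (B.card : ℝ) * ‖W‖ ≤ B.card *
        (2 * ((p : ℝ) ^ (-ε) * S.card) + S.card * (p : ℝ) ^ (-(ε / 8))) := by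
      linarith
    exact le_of_mul_le_mul_left this hB0
  have h6 : (p : ℝ) ^ (-ε) ≤ (p : ℝ) ^ (-(ε / 8)) :=
    Real.rpow_le_rpow_of_exponent_le hp1 (by linarith)
  have h7 : 3 * (p : ℝ) ^ (-(ε / 8)) ≤ (p : ℝ) ^ (-(ε / 16)) := by
    calc 3 * (p : ℝ) ^ (-(ε / 8)) ≤ (p : ℝ) ^ (ε / 16) * (p : ℝ) ^ (-(ε / 8)) :=
          mul_le_mul_of_nonneg_right h3 (by positivity)
      _ = (p : ℝ) ^ (-(ε / 16)) := by
          rw [← Real.rpow_add hp0]
          congr 1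
          ring
  calc ‖W‖ ≤ 2 * ((p : ℝ) ^ (-ε) * S.card) + S.card * (p : ℝ) ^ (-(ε / 8)) := h5
    _ ≤ 2 * ((p : ℝ) ^ (-(ε / 8)) * S.card) + S.card * (p : ℝ) ^ (-(ε / 8)) := by gcongr
    _ = S.card * (3 * (p : ℝ) ^ (-(ε / 8))) := by ring
    _ ≤ S.card * (p : ℝ) ^ (-(ε / 16)) := mul_le_mul_of_nonneg_left h7 hS0.le

/-- `T |S(a)|² ≤ Σ r(z) |S(a z)|` -/
theorem step1 {g : ZMod p} (hg0 : g ≠ 0) (hg : 1 ≤ orderOf g) (a : ZMod p) :
    (orderOf g : ℝ) * ‖∑ x ∈ HH g, ZMod.stdAddChar (N := p) (a * x)‖ ^ 2 ≤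
      ∑ z, rp g z * ‖∑ x ∈ HH g, ZMod.stdAddChar (N := p) (a * z * x)‖ := by
  have h1 : ∀ j ∈ range (orderOf g),
      ((‖∑ x ∈ HH g, ZMod.stdAddChar (N := p) (a * x)‖ ^ 2 : ℝ) : ℂ) =
        ∑ z, (rp g z : ℂ) * ZMod.stdAddChar (a * g ^ j * z) := by
    intro j _
    rw [← norm_sq_eq, sum_shift_pow hg0 hg a j]
  have h2 : (((orderOf g : ℝ) * ‖∑ x ∈ HH g, ZMod.stdAddChar (N := p) (a * x)‖ ^ 2 : ℝ) : ℂ) =
      ∑ z, (rp g z : ℂ) * ∑ x ∈ HH g, ZMod.stdAddChar (a * z * x) := by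
    have h3 : (((orderOf g : ℝ) * ‖∑ x ∈ HH g, ZMod.stdAddChar (N := p) (a * x)‖ ^ 2 : ℝ) : ℂ) =
        ∑ j ∈ range (orderOf g),
          ((‖∑ x ∈ HH g, ZMod.stdAddChar (N := p) (a * x)‖ ^ 2 : ℝ) : ℂ) := by
      rw [sum_const, card_range, nsmul_eq_mul]
      push_cast
      rfl
    rw [h3, sum_congr rfl h1, sum_comm]
    refine sum_congr rfl fun z _ => ?_
    rw [← mul_sum, sum_HH]
    congr 1
    refine sum_congr rfl fun j _ => ?_
    congr 1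
    ring
  have h4 : (orderOf g : ℝ) * ‖∑ x ∈ HH g, ZMod.stdAddChar (N := p) (a * x)‖ ^ 2 =
      ‖∑ z, (rp g z : ℂ) * ∑ x ∈ HH g, ZMod.stdAddChar (N := p) (a * z * x)‖ := by
    rw [← h2, Complex.norm_real, Real.norm_eq_abs, abs_of_nonneg (by positivity)]
  rw [h4]
  refine (norm_sum_le _ _).trans (le_of_eq (sum_congr rfl fun z _ => ?_))
  rw [norm_mul, Complex.norm_real, Real.norm_eq_abs, abs_of_nonneg (rp_nonneg g z)]

/-- `|S(a)|⁸ ≤ p E²` -/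
theorem eighth {g : ZMod p} (hg0 : g ≠ 0) (hg : 1 ≤ orderOf g) {a : ZMod p} (ha : a ≠ 0) :
    ‖∑ x ∈ HH g, ZMod.stdAddChar (N := p) (a * x)‖ ^ 8 ≤ p * (∑ z, rp g z ^ 2) ^ 2 := by
  set T : ℝ := ((orderOf g : ℕ) : ℝ) with hT
  have hT1 : (1 : ℝ) ≤ T := by
    rw [hT]
    exact_mod_cast hg
  have hT0 : 0 < T := by linarith
  set s := ‖∑ x ∈ HH g, ZMod.stdAddChar (N := p) (a * x)‖ with hs
  have hs0 : 0 ≤ s := norm_nonneg _
  set N : ZMod p → ℝ := fun z => ‖∑ x ∈ HH g, ZMod.stdAddChar (N := p) (a * z * x)‖ with hN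
  have hN0 : ∀ z, 0 ≤ N z := fun z => norm_nonneg _
  have h1 : T * s ^ 2 ≤ ∑ z, rp g z * N z := step1 hg0 hg a
  have h2 : (∑ z, rp g z * N z) ^ 2 ≤ T ^ 2 * ∑ z, rp g z * N z ^ 2 := by
    have h3 := Finset.sum_sq_le_sum_mul_sum_of_sq_le_mul (univ : Finset (ZMod p))
      (r := fun z => rp g z * N z) (f := fun z => rp g z) (g := fun z => rp g z * N z ^ 2)
      (fun z _ => rp_nonneg g z) (fun z _ => mul_nonneg (rp_nonneg g z) (by positivity))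
      (fun z _ => le_of_eq (by ring))
    rw [sum_rp, ← hT] at h3
    exact h3
  have h4 : (∑ z, rp g z * N z ^ 2) ^ 2 ≤ (∑ z, rp g z ^ 2) * ∑ z, N z ^ 4 := by
    have h3 := Finset.sum_sq_le_sum_mul_sum_of_sq_le_mul (univ : Finset (ZMod p))
      (r := fun z => rp g z * N z ^ 2) (f := fun z => rp g z ^ 2) (g := fun z => N z ^ 4)
      (fun z _ => by positivity) (fun z _ => by positivity)
      (fun z _ => le_of_eq (by ring))
    exact h3
  have h5 : ∑ z, N z ^ 4 = p * ∑ z, rp g z ^ 2 := by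
    rw [← fourth g]
    exact Fintype.sum_equiv (Equiv.mulLeft₀ a ha) _ _ fun z => rfl
  rw [h5] at h4
  set E := ∑ z, rp g z ^ 2 with hE
  have hsum0 : 0 ≤ ∑ z, rp g z * N z ^ 2 :=
    sum_nonneg fun z _ => mul_nonneg (rp_nonneg g z) (by positivity)
  have h6 : T ^ 4 * s ^ 8 ≤ T ^ 4 * (p * E ^ 2) := by
    calc T ^ 4 * s ^ 8 = ((T * s ^ 2) ^ 2) ^ 2 := by ring
      _ ≤ ((∑ z, rp g z * N z) ^ 2) ^ 2 := by gcongr
      _ ≤ (T ^ 2 * ∑ z, rp g z * N z ^ 2) ^ 2 := by gcongr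
      _ = T ^ 4 * (∑ z, rp g z * N z ^ 2) ^ 2 := by ring
      _ ≤ T ^ 4 * (E * (p * E)) := by gcongr
      _ = T ^ 4 * (p * E ^ 2) := by ring
  exact le_of_mul_le_mul_left h6 (by positivity)

/-- **the saving for subgroups with at least `p ^ (3/8 + ε)` elements** -/
theorem sub_saving {ε : ℝ} (hε : 0 < ε) (hε1 : ε ≤ 1) (h2 : (2 : ℝ) ≤ (p : ℝ) ^ (ε / 12))
    {g : ZMod p} (hg0 : g ≠ 0) (hg : 1 ≤ orderOf g)
    (hT : (p : ℝ) ^ (3 / 8 + ε) ≤ orderOf g) {a : ZMod p} (ha : a ≠ 0) :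
    ‖∑ l ∈ range (orderOf g), ZMod.stdAddChar (N := p) (a * g ^ l)‖ ≤
      orderOf g * (p : ℝ) ^ (-(ε / 4)) := by
  have hpp : p.Prime := Fact.out
  have hp0 : (0 : ℝ) < p := by exact_mod_cast hpp.pos
  have hp1 : (1 : ℝ) ≤ p := by exact_mod_cast hpp.one_lt.le
  set T : ℝ := ((orderOf g : ℕ) : ℝ) with hTdef
  have hT1 : (1 : ℝ) ≤ T := by
    rw [hTdef]
    exact_mod_cast hg
  have hT0 : 0 < T := by linarith
  rw [← sum_HH]
  set s := ‖∑ x ∈ HH g, ZMod.stdAddChar (N := p) (a * x)‖ with hs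
  have hs0 : 0 ≤ s := norm_nonneg _
  by_cases hcase : orderOf g ^ 4 < p ^ 3
  · have h1 := eighth hg0 hg ha
    rw [← hs] at h1
    have h3 := energy_le hg hcase
    rw [← hTdef] at h3
    have h4 : s ^ 8 ≤ p * (8 * (T ^ (2 / 3 : ℝ) * T ^ 2)) ^ 2 := by
      refine h1.trans ?_
      have : (0 : ℝ) ≤ ∑ z, rp g z ^ 2 := sum_nonneg fun z _ => by positivity
      gcongr
    have h5 : (p : ℝ) ^ (1 + 8 / 3 * ε) ≤ T ^ (8 / 3 : ℝ) := by
      calc (p : ℝ) ^ (1 + 8 / 3 * ε) = ((p : ℝ) ^ (3 / 8 + ε)) ^ (8 / 3 : ℝ) := by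
            rw [← Real.rpow_mul hp0.le]
            congr 1
            ring
        _ ≤ T ^ (8 / 3 : ℝ) := Real.rpow_le_rpow (by positivity) hT (by norm_num)
    have h6 : (T ^ (2 / 3 : ℝ) * T ^ 2) ^ 2 * T ^ (8 / 3 : ℝ) = T ^ 8 := by
      have e1 : T ^ (2 / 3 : ℝ) * T ^ 2 = T ^ (8 / 3 : ℝ) := by
        rw [← Real.rpow_natCast T 2, ← Real.rpow_add hT0]
        norm_num
      rw [e1, ← Real.rpow_natCast (T ^ (8 / 3 : ℝ)) 2, ← Real.rpow_mul hT0.le,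
        ← Real.rpow_add hT0, ← Real.rpow_natCast T 8]
      norm_num
    have h7 : (64 : ℝ) ≤ ((p : ℝ) ^ (ε / 12)) ^ 8 := by
      calc (64 : ℝ) ≤ 2 ^ 8 := by norm_num
        _ ≤ ((p : ℝ) ^ (ε / 12)) ^ 8 := by gcongr
    have h8 : ((p : ℝ) ^ (ε / 12)) ^ 8 = (p : ℝ) ^ (8 / 3 * ε) * (p : ℝ) ^ (-(2 * ε)) := by
      rw [← Real.rpow_natCast ((p : ℝ) ^ (ε / 12)) 8, ← Real.rpow_mul hp0.le,
        ← Real.rpow_add hp0]
      congr 1
      push_cast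
      ring
    have h9 : (T * (p : ℝ) ^ (-(ε / 4))) ^ 8 = T ^ 8 * (p : ℝ) ^ (-(2 * ε)) := by
      rw [mul_pow, ← Real.rpow_natCast ((p : ℝ) ^ (-(ε / 4))) 8, ← Real.rpow_mul hp0.le]
      congr 2
      push_cast
      ring
    have h10 : s ^ 8 ≤ (T * (p : ℝ) ^ (-(ε / 4))) ^ 8 := by
      have hpos : 0 < (p : ℝ) ^ (8 / 3 * ε) := by positivity
      have h11 : (p : ℝ) * (p : ℝ) ^ (8 / 3 * ε) ≤ T ^ (8 / 3 : ℝ) := by
        rw [← Real.rpow_one_add' hp0.le (by positivity)]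
        exact h5
      have h12 : s ^ 8 * (p : ℝ) ^ (8 / 3 * ε) ≤
          (T * (p : ℝ) ^ (-(ε / 4))) ^ 8 * (p : ℝ) ^ (8 / 3 * ε) := by
        calc s ^ 8 * (p : ℝ) ^ (8 / 3 * ε) ≤
              (p * (8 * (T ^ (2 / 3 : ℝ) * T ^ 2)) ^ 2) * (p : ℝ) ^ (8 / 3 * ε) := by gcongr
          _ = 64 * ((T ^ (2 / 3 : ℝ) * T ^ 2) ^ 2 * (p * (p : ℝ) ^ (8 / 3 * ε))) := by ring
          _ ≤ 64 * ((T ^ (2 / 3 : ℝ) * T ^ 2) ^ 2 * T ^ (8 / 3 : ℝ)) := by gcongr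
          _ = 64 * T ^ 8 := by rw [h6]
          _ ≤ ((p : ℝ) ^ (ε / 12)) ^ 8 * T ^ 8 := by gcongr
          _ = (T * (p : ℝ) ^ (-(ε / 4))) ^ 8 * (p : ℝ) ^ (8 / 3 * ε) := by rw [h8, h9]; ring
      exact le_of_mul_le_mul_right h12 hpos
    exact (pow_le_pow_iff_left₀ hs0 (by positivity) (by norm_num)).1 h10
  · have h1 := order_mul_le hg0 hg ha 2
    rw [second, ← hs, ← hTdef] at h1
    have h3 : s ^ 2 ≤ p := by
      have : T * s ^ 2 ≤ T * p := by linarith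
      exact le_of_mul_le_mul_left this hT0
    have h4 : (p : ℝ) ^ 3 ≤ T ^ 4 := by
      push Not at hcase
      rw [hTdef]
      exact_mod_cast hcase
    have h5 : s ^ 4 ≤ (T * (p : ℝ) ^ (-(ε / 4))) ^ 4 := by
      have h6 : (T * (p : ℝ) ^ (-(ε / 4))) ^ 4 = T ^ 4 * (p : ℝ) ^ (-ε) := by
        rw [mul_pow, ← Real.rpow_natCast ((p : ℝ) ^ (-(ε / 4))) 4, ← Real.rpow_mul hp0.le]
        congr 2
        push_cast
        ring
      rw [h6]
      calc s ^ 4 = (s ^ 2) ^ 2 := by ring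
        _ ≤ (p : ℝ) ^ 2 := by gcongr
        _ = (p : ℝ) ^ 3 * (p : ℝ) ^ (-1 : ℝ) := by
            rw [Real.rpow_neg_one]
            field_simp
        _ ≤ (p : ℝ) ^ 3 * (p : ℝ) ^ (-ε) := by
            gcongr
        _ ≤ T ^ 4 * (p : ℝ) ^ (-ε) := by gcongr
    exact (pow_le_pow_iff_left₀ hs0 (by positivity) (by norm_num)).1 h5

end

/-- the geometric progression `c, c θ, …, c θ ^ (M - 1)` -/
noncomputable def gp {p : ℕ} (c θ : ZMod p) (M : ℕ) : Finset (ZMod p) :=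
  (range M).image fun l => c * θ ^ l

theorem card_gp {p : ℕ} [Fact p.Prime] {c θ : ZMod p} (hc : c ≠ 0) {M : ℕ} (hM : M ≤ orderOf θ) :
    (gp c θ M).card = M := by
  unfold gp
  rw [card_image_of_injOn, card_range]
  intro i hi j hj h
  rw [coe_range, Set.mem_Iio] at hi hj
  exact pow_injOn_Iio_orderOf (show i < orderOf θ by omega) (show j < orderOf θ by omega)
    (mul_left_cancel₀ hc h)

theorem gp_sdiff {p : ℕ} (c θ : ZMod p) (M k : ℕ) :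
    (gp c θ M \ (gp c θ M).image (fun x => θ ^ k * x)).card ≤ k := by
  calc (gp c θ M \ (gp c θ M).image (fun x => θ ^ k * x)).card ≤ (gp c θ k).card := by
        refine card_le_card ?_
        intro x hx
        obtain ⟨h1, h2⟩ := Finset.mem_sdiff.1 hx
        unfold gp at h1 h2 ⊢
        obtain ⟨l, hl, rfl⟩ := mem_image.1 h1
        rw [mem_range] at hl
        by_cases hlk : l < k
        · exact mem_image.2 ⟨l, mem_range.2 hlk, rfl⟩
        · exfalso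
          apply h2
          refine mem_image.2 ⟨c * θ ^ (l - k), mem_image.2 ⟨l - k, mem_range.2 (by omega), rfl⟩, ?_⟩
          have : θ ^ l = θ ^ k * θ ^ (l - k) := by
            rw [← pow_add]
            congr 1
            omega
          rw [this]
          ring
    _ ≤ k := by
        unfold gp
        exact card_image_le.trans (le_of_eq (card_range k))

end Pool.Agent.X67.QS
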