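import Pool.Agent.X67.QS.CritQP
import Pool.Agent.X67.QS.Sums

set_option autoImplicit false

/-!
# Consecutive squares and pronic numbers in record gaps, at structured residues modulo a prime
-/

namespace Pool.Agent.X67.QS

open Finset Polynomial Filter
open Pool.Agent.X164.MP
open Pool.Agent.Y943.Fu
open Pool.Agent.H256R2.SC (ff)

/-- **record gaps around polynomial values at a point of a set with almost periods** -/
theorem almost_inv_qs (k : ℕ) (ε : ℝ) (hε : 0 < ε) : ∃ κ : ℝ, 0 < κ ∧ ∃ p₀ : ℕ,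
    ∀ (p : ℕ) [Fact p.Prime], p₀ ≤ p → ∀ (S B : Finset (ZMod p)) (F : (ZMod p)[X]),
      1 ≤ F.natDegree → F.natDegree ≤ k →
      (p : ℝ) ^ (1 + ε) ≤ S.card * B.card → B.card ≤ S.card →
      (∀ b ∈ B, b ≠ 0 ∧
        ((S \ S.image (fun x => b * x)).card : ℝ) ≤ (p : ℝ) ^ (-ε) * S.card) →
      ∀ J Z : ℕ, 1 ≤ J → Real.log p ≤ (Z : ℝ) → (J : ℝ) * (Z : ℝ) ≤ κ * ff p →
      ∃ x ∈ S, ∀ j : ℕ, j < J → ∀ q : ℕ, q.Prime →
        (Z : ℝ) < |(q : ℝ) - (((F.eval x).val : ℝ) + j) ^ 2| ∧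
        (Z : ℝ) < |(q : ℝ) - (((F.eval x).val : ℝ) + j) * (((F.eval x).val : ℝ) + j + 1)| := by
  obtain ⟨κ, hκ, p₀, h⟩ := critQP (ε / 16) (by positivity)
  have ev : ∀ᶠ p : ℕ in atTop, (2 : ℝ) * k ≤ (p : ℝ) ^ (ε / 4) ∧ (3 : ℝ) ≤ (p : ℝ) ^ (ε / 16) :=
    (((tendsto_rpow_atTop (by positivity : 0 < ε / 4)).comp
      tendsto_natCast_atTop_atTop).eventually_ge_atTop _).and
    (((tendsto_rpow_atTop (by positivity : 0 < ε / 16)).comp
      tendsto_natCast_atTop_atTop).eventually_ge_atTop _)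
  obtain ⟨p₁, hp₁⟩ := eventually_atTop.1 ev
  refine ⟨κ, hκ, max (max p₀ p₁) (k + 1), ?_⟩
  intro p _ hp S B F hF1 hF hSB hle hB J Z hJ hZ hJZ
  have hpp : p.Prime := Fact.out
  have hp0 : (0 : ℝ) < p := by exact_mod_cast hpp.pos
  obtain ⟨e1, e2⟩ := hp₁ p ((le_max_right _ _).trans ((le_max_left _ _).trans hp))
  have hkp : k < p := (le_max_right _ _).trans hp
  have hne : S.Nonempty := by
    rw [Finset.nonempty_iff_ne_empty]
    rintro rfl
    rw [Finset.card_empty, Nat.cast_zero, zero_mul] at hSB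
    exact absurd hSB (not_le.2 (by positivity))
  refine h p ((le_max_left _ _).trans ((le_max_left _ _).trans hp)) (ZMod p) S
    (fun x => F.eval x) hne ?_ J Z hJ hZ hJZ
  intro c hc
  have hG : ∀ x : ZMod p, c * F.eval x = (C c * F).eval x := by
    intro x
    rw [eval_mul, eval_C]
  simp only [hG]
  have hdeg : (C c * F).natDegree = F.natDegree := natDegree_C_mul hc
  exact almost_inv hkp hε e1 e2 _ (by rw [hdeg]; exact hF1) (by rw [hdeg]; exact hF) S B hSB hle hB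

/-- **geometric progressions** -/
theorem gp_qs (k : ℕ) (ε : ℝ) (hε : 0 < ε) : ∃ κ : ℝ, 0 < κ ∧ ∃ p₀ : ℕ,
    ∀ (p : ℕ) [Fact p.Prime], p₀ ≤ p → ∀ (θ c : ZMod p) (M : ℕ) (F : (ZMod p)[X]),
      θ ≠ 0 → c ≠ 0 → M ≤ orderOf θ → (p : ℝ) ^ (1 / 2 + ε) ≤ M →
      1 ≤ F.natDegree → F.natDegree ≤ k →
      ∀ J Z : ℕ, 1 ≤ J → Real.log p ≤ (Z : ℝ) → (J : ℝ) * (Z : ℝ) ≤ κ * ff p →
      ∃ l : ℕ, l < M ∧ ∀ j : ℕ, j < J → ∀ q : ℕ, q.Prime →
        (Z : ℝ) < |(q : ℝ) - (((F.eval (c * θ ^ l)).val : ℝ) + j) ^ 2| ∧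
        (Z : ℝ) < |(q : ℝ) - (((F.eval (c * θ ^ l)).val : ℝ) + j) *
          (((F.eval (c * θ ^ l)).val : ℝ) + j + 1)| := by
  obtain ⟨κ, hκ, p₀, h⟩ := almost_inv_qs k (ε / 2) (by positivity)
  have ev : ∀ᶠ p : ℕ in atTop, (2 : ℝ) ≤ (p : ℝ) ^ ε :=
    ((tendsto_rpow_atTop hε).comp tendsto_natCast_atTop_atTop).eventually_ge_atTop _
  obtain ⟨p₁, hp₁⟩ := eventually_atTop.1 ev
  refine ⟨κ, hκ, max p₀ p₁, ?_⟩
  intro p _ hp θ c M F hθ hc hM hMp hF1 hF J Z hJ hZ hJZ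
  have hpp : p.Prime := Fact.out
  have hp0 : (0 : ℝ) < p := by exact_mod_cast hpp.pos
  have hp1 : (1 : ℝ) ≤ p := by exact_mod_cast hpp.one_lt.le
  have h2 := hp₁ p ((le_max_right _ _).trans hp)
  set K : ℕ := ⌊(M : ℝ) * (p : ℝ) ^ (-(ε / 2))⌋₊ with hK
  have hy0 : 0 ≤ (M : ℝ) * (p : ℝ) ^ (-(ε / 2)) := by positivity
  have hKle : (K : ℝ) ≤ (M : ℝ) * (p : ℝ) ^ (-(ε / 2)) := Nat.floor_le hy0
  have hpe : (p : ℝ) ^ (-(ε / 2)) ≤ 1 := Real.rpow_le_one_of_one_le_of_nonpos hp1 (by linarith)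
  have hKM : K ≤ M := by
    have : (K : ℝ) ≤ M := hKle.trans (mul_le_of_le_one_right (Nat.cast_nonneg _) hpe)
    exact_mod_cast this
  have hy1 : 1 ≤ (M : ℝ) * (p : ℝ) ^ (-(ε / 2)) := by
    calc (1 : ℝ) ≤ (p : ℝ) ^ (1 / 2 + ε + -(ε / 2)) := Real.one_le_rpow hp1 (by linarith)
      _ = (p : ℝ) ^ (1 / 2 + ε) * (p : ℝ) ^ (-(ε / 2)) := Real.rpow_add hp0 _ _
      _ ≤ M * (p : ℝ) ^ (-(ε / 2)) := by gcongr
  have hKge : (M : ℝ) * (p : ℝ) ^ (-(ε / 2)) / 2 ≤ K := by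
    have h3 := Nat.lt_floor_add_one ((M : ℝ) * (p : ℝ) ^ (-(ε / 2)))
    rw [← hK] at h3
    have h4 : 1 ≤ K := Nat.le_floor (by rw [Nat.cast_one]; exact hy1)
    have h5 : (1 : ℝ) ≤ K := by exact_mod_cast h4
    linarith
  obtain ⟨x, hx, hx2⟩ := h p ((le_max_left _ _).trans hp) (gp c θ M) (gp 1 θ K) F hF1 hF
    (by
      rw [card_gp hc hM, card_gp one_ne_zero (hKM.trans hM)]
      calc (p : ℝ) ^ (1 + ε / 2) ≤ (p : ℝ) ^ (1 + ε / 2) * ((p : ℝ) ^ ε / 2) := by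
            apply le_mul_of_one_le_right (by positivity)
            linarith
        _ = (p : ℝ) ^ (1 / 2 + ε) * ((p : ℝ) ^ (1 / 2 + ε) * (p : ℝ) ^ (-(ε / 2)) / 2) := by
            have e1 : (p : ℝ) ^ (1 / 2 + ε) * ((p : ℝ) ^ (1 / 2 + ε) * (p : ℝ) ^ (-(ε / 2)) / 2) =
                ((p : ℝ) ^ (1 / 2 + ε) * ((p : ℝ) ^ (1 / 2 + ε) * (p : ℝ) ^ (-(ε / 2)))) / 2 := by
              ring
            rw [e1, ← Real.rpow_add hp0, ← Real.rpow_add hp0]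
            have e2 : (p : ℝ) ^ (1 + ε / 2) * ((p : ℝ) ^ ε / 2) =
                ((p : ℝ) ^ (1 + ε / 2) * (p : ℝ) ^ ε) / 2 := by ring
            rw [e2, ← Real.rpow_add hp0]
            congr 2
            ring
        _ ≤ M * K := by
            refine mul_le_mul hMp ?_ (by positivity) (Nat.cast_nonneg _)
            refine le_trans ?_ hKge
            gcongr)
    (by
      rw [card_gp hc hM, card_gp one_ne_zero (hKM.trans hM)]
      exact hKM)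
    (by
      intro b hb
      unfold gp at hb
      obtain ⟨i, hi, rfl⟩ := mem_image.1 hb
      rw [mem_range] at hi
      refine ⟨by rw [one_mul]; exact pow_ne_zero _ hθ, ?_⟩
      have h3 := gp_sdiff c θ M i
      rw [card_gp hc hM]
      calc ((gp c θ M \ (gp c θ M).image (fun x => 1 * θ ^ i * x)).card : ℝ) ≤ i := by
            have : (fun x : ZMod p => 1 * θ ^ i * x) = fun x => θ ^ i * x := by
              funext x
              rw [one_mul]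
            rw [this]
            exact_mod_cast h3
        _ ≤ K := by exact_mod_cast hi.le
        _ ≤ (p : ℝ) ^ (-(ε / 2)) * M := by rw [mul_comm]; exact hKle) J Z hJ hZ hJZ
  unfold gp at hx
  obtain ⟨l, hl, rfl⟩ := mem_image.1 hx
  exact ⟨l, mem_range.1 hl, hx2⟩

/-- **record gaps around a point of an affine image of a subgroup** -/
theorem sub_qs (ε : ℝ) (hε : 0 < ε) : ∃ κ : ℝ, 0 < κ ∧ ∃ p₀ : ℕ,
    ∀ (p : ℕ) [Fact p.Prime], p₀ ≤ p → ∀ θ c a : ZMod p, θ ≠ 0 → c ≠ 0 →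
      (p : ℝ) ^ (3 / 8 + ε) ≤ orderOf θ →
      ∀ J Z : ℕ, 1 ≤ J → Real.log p ≤ (Z : ℝ) → (J : ℝ) * (Z : ℝ) ≤ κ * ff p →
      ∃ l : ℕ, l < orderOf θ ∧ ∀ j : ℕ, j < J → ∀ q : ℕ, q.Prime →
        (Z : ℝ) < |(q : ℝ) - (((a + c * θ ^ l).val : ℝ) + j) ^ 2| ∧
        (Z : ℝ) < |(q : ℝ) - (((a + c * θ ^ l).val : ℝ) + j) *
          (((a + c * θ ^ l).val : ℝ) + j + 1)| := by
  set δ : ℝ := min ε 1 with hδ
  have hδ0 : 0 < δ := lt_min hε one_pos
  have hδε : δ ≤ ε := min_le_left _ _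
  have hδ1 : δ ≤ 1 := min_le_right _ _
  obtain ⟨κ, hκ, p₀, h⟩ := critQP (δ / 4) (by positivity)
  have ev : ∀ᶠ p : ℕ in atTop, (2 : ℝ) ≤ (p : ℝ) ^ (δ / 12) :=
    ((tendsto_rpow_atTop (by positivity : 0 < δ / 12)).comp
      tendsto_natCast_atTop_atTop).eventually_ge_atTop _
  obtain ⟨p₁, hp₁⟩ := eventually_atTop.1 ev
  refine ⟨κ, hκ, max p₀ p₁, ?_⟩
  intro p _ hp θ c a hθ hc hT J Z hJ hZ hJZ
  have hpp : p.Prime := Fact.out
  have hp0 : (0 : ℝ) < p := by exact_mod_cast hpp.pos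
  have hp1 : (1 : ℝ) ≤ p := by exact_mod_cast hpp.one_lt.le
  have hord : 1 ≤ orderOf θ := by
    have h1 : (0 : ℝ) < orderOf θ := lt_of_lt_of_le (by positivity) hT
    exact_mod_cast h1
  have hT' : (p : ℝ) ^ (3 / 8 + δ) ≤ orderOf θ :=
    (Real.rpow_le_rpow_of_exponent_le hp1 (by linarith)).trans hT
  obtain ⟨l, hl, hl2⟩ := h p ((le_max_left _ _).trans hp) ℕ (range (orderOf θ))
    (fun l => a + c * θ ^ l) (by rw [nonempty_range_iff]; omega) (by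
      intro k hk0
      have e : ∀ l : ℕ, (ZMod.stdAddChar (k * (a + c * θ ^ l)) : ℂ) =
          ZMod.stdAddChar (k * a) * ZMod.stdAddChar (k * c * θ ^ l) := by
        intro l
        rw [← AddChar.map_add_eq_mul]
        congr 1
        ring
      simp only [e]
      rw [← mul_sum, norm_mul, norm_psi, one_mul, card_range]
      exact sub_saving hδ0 hδ1 (hp₁ p ((le_max_right _ _).trans hp)) hθ hord hT'
        (mul_ne_zero hk0 hc)) J Z hJ hZ hJZ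
  exact ⟨l, mem_range.1 hl, hl2⟩

/-- **products of arbitrary sets** -/
theorem prod_qs (k : ℕ) (ε : ℝ) (hε : 0 < ε) : ∃ κ : ℝ, 0 < κ ∧ ∃ p₀ : ℕ,
    ∀ (p : ℕ) [Fact p.Prime], p₀ ≤ p → ∀ (A B : Finset (ZMod p)) (F : (ZMod p)[X]),
      1 ≤ F.natDegree → F.natDegree ≤ k →
      (p : ℝ) ^ (1 + ε) ≤ A.card * B.card →
      ∀ J Z : ℕ, 1 ≤ J → Real.log p ≤ (Z : ℝ) → (J : ℝ) * (Z : ℝ) ≤ κ * ff p →
      ∃ a ∈ A, ∃ b ∈ B, ∀ j : ℕ, j < J → ∀ q : ℕ, q.Prime →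
        (Z : ℝ) < |(q : ℝ) - (((F.eval (a * b)).val : ℝ) + j) ^ 2| ∧
        (Z : ℝ) < |(q : ℝ) - (((F.eval (a * b)).val : ℝ) + j) *
          (((F.eval (a * b)).val : ℝ) + j + 1)| := by
  obtain ⟨κ, hκ, p₀, h⟩ := critQP (ε / 8) (by positivity)
  have ev : ∀ᶠ p : ℕ in atTop, (2 : ℝ) * k ≤ (p : ℝ) ^ (ε / 4) :=
    ((tendsto_rpow_atTop (by positivity : 0 < ε / 4)).comp
      tendsto_natCast_atTop_atTop).eventually_ge_atTop _
  obtain ⟨p₁, hp₁⟩ := eventually_atTop.1 ev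
  refine ⟨κ, hκ, max (max p₀ p₁) (k + 1), ?_⟩
  intro p _ hp A B F hF1 hF hAB J Z hJ hZ hJZ
  have hpp : p.Prime := Fact.out
  have hp0 : (0 : ℝ) < p := by exact_mod_cast hpp.pos
  have e1 := hp₁ p ((le_max_right _ _).trans ((le_max_left _ _).trans hp))
  have hkp : k < p := (le_max_right _ _).trans hp
  have hAB0 : (0 : ℝ) < A.card * B.card := lt_of_lt_of_le (by positivity) hAB
  -- the symmetric statement, the smaller set second
  have main : ∀ A B : Finset (ZMod p), B.card ≤ A.card → (p : ℝ) ^ (1 + ε) ≤ A.card * B.card →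
      ∃ a ∈ A, ∃ b ∈ B, ∀ j : ℕ, j < J → ∀ q : ℕ, q.Prime →
        (Z : ℝ) < |(q : ℝ) - (((F.eval (a * b)).val : ℝ) + j) ^ 2| ∧
        (Z : ℝ) < |(q : ℝ) - (((F.eval (a * b)).val : ℝ) + j) *
          (((F.eval (a * b)).val : ℝ) + j + 1)| := by
    intro A B hle hAB
    have hAB0 : (0 : ℝ) < A.card * B.card := lt_of_lt_of_le (by positivity) hAB
    have hne : (A ×ˢ B).Nonempty := by
      rw [← Finset.card_pos, Finset.card_product]
      exact_mod_cast hAB0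
    obtain ⟨w, hw, hw2⟩ := h p ((le_max_left _ _).trans ((le_max_left _ _).trans hp))
      (ZMod p × ZMod p) (A ×ˢ B) (fun w => F.eval (w.1 * w.2)) hne (by
        intro c hc
        have hG : ∀ x : ZMod p, c * F.eval x = (C c * F).eval x := by
          intro x
          rw [eval_mul, eval_C]
        simp only [hG]
        have hdeg : (C c * F).natDegree = F.natDegree := natDegree_C_mul hc
        rw [Finset.sum_product, Finset.card_product, Nat.cast_mul]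
        exact bilin_saving hkp hε e1 _ (by rw [hdeg]; exact hF1) (by rw [hdeg]; exact hF) A B hAB
          hle) J Z hJ hZ hJZ
    rw [Finset.mem_product] at hw
    exact ⟨w.1, hw.1, w.2, hw.2, hw2⟩
  rcases le_total B.card A.card with hle | hle
  · exact main A B hle hAB
  · obtain ⟨b, hb, a, ha, hab⟩ := main B A hle (by rw [mul_comm]; exact hAB)
    refine ⟨a, ha, b, hb, ?_⟩
    rw [mul_comm a b]
    exact hab

end Pool.Agent.X67.QS
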