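import Pool.Agent.H426R3.SQ.Q4
import Pool.Agent.X67.QS.Cov
import Pool.Agent.X67.QS.Qs

set_option autoImplicit false

/-! # Consecutive squares and pronic numbers in record gaps, equidistributed families

Adapted from `Pool.Agent.H426R3.SQ.qs_main` (helper426). -/

namespace Pool.Agent.X67.QS

open Finset Pool.Agent.H256R2.SC
open Pool.Agent.H426R3.SQ

open scoped Classical

/-- consecutive quarter squares -/
theorem qs_fam : ∃ c : ℝ, 0 < c ∧ ∃ Y₀ : ℝ, ∀ Y : ℝ, Y₀ ≤ Y →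
    ∀ (I : Finset ℤ) (v : ℤ → ℤ), I.Nonempty → (∀ i ∈ I, Y ≤ (v i : ℝ)) →
    (∀ q : ℕ, 1 ≤ q → (q : ℝ) ≤ Y → ∀ ρ : ℤ,
      |((I.filter (fun i => (q : ℤ) ∣ v i - ρ)).card : ℝ) - I.card / (q : ℝ)| ≤
        I.card * Y ^ (-2 : ℝ)) →
    ∀ J Z : ℕ, 1 ≤ J → Real.log Y ≤ (Z : ℝ) →
      (J : ℝ) * (Z : ℝ) ≤ c * Pool.Agent.H256R2.SC.ff Y →
    ∃ i ∈ I, ∀ j : ℕ, j < J → ∀ k : ℕ, k.Prime →
      (Z : ℝ) < |(k : ℝ) - ((v i : ℝ) ^ 2 + (j : ℝ) * (v i : ℝ) + (qs j : ℝ))| := by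
  obtain ⟨Cf, hCf, L₁, hfew⟩ := few_bad_of char_blocks exists_char same_rho_count
  obtain ⟨c₂, hc₂, y₁, hy₁, hRL⟩ := rough_lower_B (Cf + 1)
  obtain ⟨c, hc, X₁, hcov⟩ := covering_hit_rel (c₂ / 3) (by positivity)
  obtain ⟨y₂, hmany⟩ := many_primes
  obtain ⟨Cs, hCs, y₃, hsur⟩ := survivors_e
  set Ca : ℝ := Real.exp 6 with hCadef
  have hCa : 0 < Ca := Real.exp_pos 6
  obtain ⟨c', hc', X₂, hana⟩ := LG.ana (y₀ := max y₂ y₃) hc (show 0 < 2 * Cs * Ca by positivity)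
  obtain ⟨L₂, hL₂⟩ := ev_L2 c' (max L₁ y₁)
  refine ⟨c' / 8, by positivity, max (max X₁ X₂) (Real.exp L₂), fun Y hY I v hI hv hE J Z hJ1 hZL hJZ => ?_⟩
  have hYX1 : X₁ ≤ Y := (le_max_left _ _).trans ((le_max_left _ _).trans hY)
  have hYX2 : X₂ ≤ Y := (le_max_right _ _).trans ((le_max_left _ _).trans hY)
  have hYL2 : Real.exp L₂ ≤ Y := (le_max_right _ _).trans hY
  obtain ⟨a1, a2, a3, a4, a5, a6, a7, a8, a9, a10, -, -, -, -, -, -, a17⟩ :=
    hana Y hYX2 _ _ rfl rfl _ rfl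
  have hY0 : 0 < Y := by linarith
  set L : ℝ := Real.log Y with hL
  have hLL2 : L₂ ≤ L := by
    rw [hL, Real.le_log_iff_exp_le hY0]
    exact hYL2
  obtain ⟨b1, b2, b3, b5, b6, b7⟩ := hL₂ L hLL2
  have hLL1 : L₁ ≤ L := (le_max_left _ _).trans b5
  have hLy1 : y₁ ≤ L := (le_max_right _ _).trans b5
  set y : ℝ := L / 10 with hy
  set F : ℝ := c' * Pool.Agent.H256R2.SC.ff Y with hF
  set T₀ : ℕ := ⌊F⌋₊ with hT₀
  have hL0 : 0 < L := by linarith
  have hL1 : 1 ≤ L := by linarith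
  have hYexp : Y = Real.exp L := (Real.exp_log hY0).symm
  have hrp : 0 < L ^ (19 / 20 : ℝ) := Real.rpow_pos_of_pos hL0 _
  -- sizes of J and Z
  have hJZT : 8 * (J * Z) ≤ T₀ := by
    apply Nat.le_floor
    push_cast
    have : c' / 8 * Pool.Agent.H256R2.SC.ff Y = F / 8 := by rw [hF]; ring
    rw [this] at hJZ
    linarith
  have hJZTr : 8 * ((J : ℝ) * (Z : ℝ)) ≤ (T₀ : ℝ) := by exact_mod_cast hJZT
  have hJ1r : (1 : ℝ) ≤ (J : ℝ) := by exact_mod_cast hJ1
  have hZ0 : (0 : ℝ) ≤ (Z : ℝ) := Nat.cast_nonneg Z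
  have hT₀L : (T₀ : ℝ) ≤ L * L ^ (1 / 20 : ℝ) := by
    refine a6.trans ?_
    have h1 : Pool.Agent.H256R2.SC.ff Y ≤ L * (Real.log L) ^ 3 := by
      unfold Pool.Agent.H256R2.SC.ff
      rw [← hL]
      have hl0 : 0 < Real.log L := by linarith
      by_cases h3 : 1 ≤ Real.log (Real.log L)
      · have h4 : Real.log (Real.log (Real.log L)) ≤ Real.log L := by
          have e1 := Real.log_le_sub_one_of_pos (show 0 < Real.log (Real.log L) by linarith)
          have e2 := Real.log_le_sub_one_of_pos hl0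
          linarith
        have h5 : 0 ≤ Real.log (Real.log (Real.log L)) := Real.log_nonneg h3
        rw [div_le_iff₀ (by positivity)]
        have h6 : 1 ≤ (Real.log (Real.log L)) ^ 2 := one_le_pow₀ h3
        calc L * (Real.log L) ^ 2 * Real.log (Real.log (Real.log L)) ≤
              L * (Real.log L) ^ 2 * Real.log L := by gcongr
          _ = L * (Real.log L) ^ 3 * 1 := by ring
          _ ≤ _ := by gcongr
      · exfalso
        push Not at h3
        rw [Real.log_lt_iff_lt_exp hl0] at h3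
        have := Real.exp_one_lt_d9
        linarith
    rw [hF]
    calc c' * Pool.Agent.H256R2.SC.ff Y ≤ c' * (L * (Real.log L) ^ 3) := by gcongr
      _ = L * (c' * (Real.log L) ^ 3) := by ring
      _ ≤ L * L ^ (1 / 20 : ℝ) := by gcongr
  have hpow20 : L ^ (1 / 20 : ℝ) ≤ L ^ (19 / 20 : ℝ) :=
    Real.rpow_le_rpow_of_exponent_le hL1 (by norm_num)
  have hZT₀ : 8 * (Z : ℝ) ≤ (T₀ : ℝ) := by
    have : 1 * (Z : ℝ) ≤ (J : ℝ) * (Z : ℝ) := mul_le_mul_of_nonneg_right hJ1r hZ0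
    linarith
  have hZL2 : 8 * (Z : ℝ) ≤ L * L ^ (1 / 20 : ℝ) := hZT₀.trans hT₀L
  have hcast : (((4 * Z + 1 : ℕ)) : ℝ) = 4 * (Z : ℝ) + 1 := by push_cast; ring
  have hQ5 : (((4 * Z + 1 : ℕ)) : ℝ) ≤ 5 * (Z : ℝ) := by
    rw [hcast]
    linarith
  have hJL : 2 * (J : ℝ) ≤ L ^ (1 / 20 : ℝ) := by
    have h1 : (J : ℝ) * L ≤ (J : ℝ) * (Z : ℝ) := mul_le_mul_of_nonneg_left hZL (by linarith)
    have h2 : (2 * (J : ℝ)) * L ≤ L ^ (1 / 20 : ℝ) * L := by linarith
    exact le_of_mul_le_mul_right h2 hL0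
  have hTL : (((4 * Z + 1 : ℕ)) : ℝ) ≤ L ^ (11 / 10 : ℝ) := by
    have h1 : L * L ^ (1 / 20 : ℝ) ≤ L ^ (11 / 10 : ℝ) := by
      rw [← Real.rpow_one_add' hL0.le (by norm_num)]
      exact Real.rpow_le_rpow_of_exponent_le hL1 (by norm_num)
    linarith
  have hTL2 : 8 * (Z : ℝ) ≤ L * L / 200 := by
    have h1 : L * L ^ (1 / 20 : ℝ) ≤ L * (L / 200) := by
      apply mul_le_mul_of_nonneg_left _ hL0.le
      linarith
    linarith
  have hJsq : J ^ 2 ≤ Z := by
    have h1 : (J : ℝ) ^ 2 ≤ (Z : ℝ) := by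
      have h2 : (J : ℝ) ^ 2 ≤ (L ^ (1 / 20 : ℝ)) ^ 2 :=
        pow_le_pow_left₀ (by linarith) (by linarith) 2
      have h3 : (L ^ (1 / 20 : ℝ)) ^ 2 ≤ L := by
        rw [← Real.rpow_natCast, ← Real.rpow_mul hL0.le]
        calc L ^ ((1 / 20 : ℝ) * ((2 : ℕ) : ℝ)) ≤ L ^ (1 : ℝ) :=
              Real.rpow_le_rpow_of_exponent_le hL1 (by norm_num)
          _ = L := Real.rpow_one L
      linarith
    exact_mod_cast h1
  -- logarithms of y
  have hly0 : Real.log y = Real.log L - Real.log 10 := by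
    rw [hy, Real.log_div hL0.ne' (by norm_num)]
  have hl10 := LG.log10_lt
  have hly : 97 ≤ Real.log y := by rw [hly0]; linarith
  have hly' : Real.log y ≤ Real.log L := by
    rw [hly0]
    have : 0 < Real.log 10 := Real.log_pos (by norm_num)
    linarith
  have hlly : 1 ≤ Real.log (Real.log y) := by
    rw [Real.le_log_iff_exp_le (by linarith)]
    have := Real.exp_one_lt_d9
    linarith
  have hllly : 0 ≤ Real.log (Real.log (Real.log y)) := Real.log_nonneg hlly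
  have hy0 : 0 < y := by positivity
  have hzy : zR y ≤ y := zR_le hy0 (by linarith) hlly
  -- powers
  have hL3L : L ≤ L ^ 3 := le_self_pow₀ hL1 (by norm_num)
  have hexp3 : Real.exp 3 ≤ L ^ 3 := by
    have e1 : Real.exp 3 = (Real.exp 1) ^ 3 := by
      rw [← Real.exp_nat_mul]; norm_num
    rw [e1]
    have := Real.exp_one_lt_d9
    exact pow_le_pow_left₀ (Real.exp_pos _).le (by linarith) 3
  -- the bad shifts
  obtain ⟨𝓑, h𝓑1, h𝓑2⟩ := hfew L hLL1 (4 * Z + 1) hTL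
  set Bad : Finset ℤ := 𝓑.filter (fun u => u ≠ 0 ∧ u ≠ -1 ∧ |u| ≤ ((4 * Z + 1 : ℕ) : ℤ))
    with hBad
  have hBadc : (Bad.card : ℝ) ≤ L ^ (9 / 10 : ℝ) := by
    refine le_trans ?_ h𝓑1
    exact_mod_cast card_le_card (filter_subset _ _)
  have hJBad : (J : ℝ) * (Bad.card : ℝ) ≤ L ^ (19 / 20 : ℝ) := by
    calc (J : ℝ) * (Bad.card : ℝ) ≤ L ^ (1 / 20 : ℝ) * L ^ (9 / 10 : ℝ) := by
          apply mul_le_mul (by linarith) hBadc (Nat.cast_nonneg _)
            (Real.rpow_nonneg hL0.le _)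
      _ = L ^ (19 / 20 : ℝ) := by
          rw [← Real.rpow_add hL0]; norm_num
  have hprodcard : ((range J ×ˢ Bad).card : ℝ) = (J : ℝ) * (Bad.card : ℝ) := by
    rw [card_product, card_range]
    push_cast
    ring
  obtain ⟨pu, hpu, hinj⟩ := exists_inj_choice (range J ×ˢ Bad)
    (fun u : ℕ × ℤ => (Finset.Icc 1 ⌊y ^ 9⌋₊).filter (fun p : ℕ => p.Prime ∧ y < (p : ℝ) ∧
      ∃ t : ℤ, (p : ℤ) ∣ t ^ 2 + u.2)) (by
      intro u hu
      rw [mem_product, hBad, mem_filter] at hu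
      have h1 : |(u.2 : ℝ)| ≤ y ^ 2 := by
        have e1 : |(u.2 : ℝ)| ≤ (((4 * Z + 1 : ℕ)) : ℝ) := by exact_mod_cast hu.2.2.2.2
        refine e1.trans (hQ5.trans ?_)
        have e2 : y ^ 2 = L * L / 100 := by rw [hy]; ring
        rw [e2]
        have e3 : 0 < L * L := mul_pos hL0 hL0
        linarith
      have h2 := hmany y ((le_max_left _ _).trans a3) u.2 hu.2.2.1 hu.2.2.2.1 h1
      have h3 : ((range J ×ˢ Bad).card : ℝ) ≤ y / 20 := by
        rw [hprodcard, hy]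
        linarith
      exact_mod_cast h3.trans h2)
  have hpu' : ∀ u ∈ range J ×ˢ Bad, (pu u).Prime ∧ y < (pu u : ℝ) ∧ (pu u : ℝ) ≤ y ^ 9 ∧
      ∃ t : ℤ, (pu u : ℤ) ∣ t ^ 2 + u.2 := by
    intro u hu
    have h1 := hpu u hu
    rw [mem_filter, mem_Icc] at h1
    refine ⟨h1.2.1, h1.2.2.1, ?_, h1.2.2.2⟩
    calc (pu u : ℝ) ≤ (⌊y ^ 9⌋₊ : ℝ) := by exact_mod_cast h1.1.2
      _ ≤ y ^ 9 := Nat.floor_le (by positivity)
  have hy1 : 1 ≤ y := by rw [hy]; linarith
  have hy9 : y ^ 9 ≤ Y := by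
    have e1 : y ^ 9 = Real.exp (9 * Real.log y) := by
      rw [show (9:ℝ) = ((9:ℕ):ℝ) by norm_num, Real.exp_nat_mul, Real.exp_log hy0]
    rw [e1, hYexp]
    apply Real.exp_le_exp.mpr
    have e2 : (1:ℝ) ≤ L ^ (19 / 20 : ℝ) := Real.one_le_rpow hL1 (by norm_num)
    have e3 : 900 * Real.log L * 1 ≤ 900 * Real.log L * L ^ (19 / 20 : ℝ) := by
      apply mul_le_mul_of_nonneg_left e2
      linarith
    linarith
  have hquad : (Z : ℝ) ≤ Y / 100 := by
    have h1 := Real.quadratic_le_exp_of_nonneg hL0.le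
    rw [← hYexp] at h1
    have h2 : L ^ 2 = L * L := by ring
    rw [h2] at h1
    linarith
  have hYbig : 1000 ≤ Y := by
    have h1 := Real.add_one_le_exp L
    rw [← hYexp] at h1
    linarith
  -- apply the arithmetic core
  obtain ⟨i, hi, hm3⟩ := qs_arith_fam (c₂ := c₂ / 3) (c := c) (Y := Y)
    (fun B κ _ _ _ => hcov Y hYX1 B κ) a1 (y := y) (by rw [hy]; linarith) hzy
    (by
      rw [← hL]
      have : y ≤ L := by rw [hy]; linarith
      linarith)
    (by rw [← hL]; exact hexp3) (J := J) (Z := Z)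
    (by
      rw [← hL]
      have h1 : (((4 * Z + 1 : ℕ)) : ℝ) ^ 2 ≤ (L * L ^ (1 / 20 : ℝ)) ^ 2 :=
        pow_le_pow_left₀ (by positivity) (by linarith) 2
      have h2 : (L ^ (1 / 20 : ℝ)) ^ 2 ≤ L ^ (19 / 20 : ℝ) := by
        rw [← Real.rpow_natCast, ← Real.rpow_mul hL0.le]
        exact Real.rpow_le_rpow_of_exponent_le hL1 (by norm_num)
      have h3 : (L * L ^ (1 / 20 : ℝ)) ^ 2 ≤ L ^ 2 * (L / 200) := by
        rw [mul_pow]
        apply mul_le_mul_of_nonneg_left _ (by positivity)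
        linarith
      have h4 : L ^ 2 * (L / 200) = L ^ 3 / 200 := by ring
      have h5 : 0 < L ^ 3 := by positivity
      rw [h4] at h3
      linarith) (by omega)
    Bad pu (y ^ 9) Y (one_le_pow₀ hy1) hpu' hinj
    (by
      intro u hu0 husq huT huB z x hx hxz hz
      rw [← hL] at hx hz ⊢
      have hu1 : u ≠ -1 := by
        rintro rfl
        exact husq ⟨1, by norm_num⟩
      have huB' : u ∉ 𝓑 := fun h => huB (by
        rw [hBad, mem_filter]
        exact ⟨h, hu0, hu1, huT⟩)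
      have h1 := hRL (L ^ 3) z ((range J ×ˢ Bad).image pu) (gk u) (hLy1.trans hL3L) (gk_bound u) (by
        intro w hw1 hw2
        have h2 := h𝓑2 u hu0 huT huB' w hw1 (hw2.trans hz)
        have h3 := sum_remove u (Y3 := L ^ 3) (w := w) (by positivity)
          ((range J ×ˢ Bad).image pu) (by
          have e1 : (((range J ×ˢ Bad).image pu).card : ℝ) ≤ ((range J ×ˢ Bad).card : ℝ) := by
            exact_mod_cast card_image_le
          rw [hprodcard] at e1
          linarith)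
        linarith) x hx hxz
      have h2 : Real.log (L ^ 3) = 3 * Real.log L := by
        rw [Real.log_pow]
        norm_num
      rw [h2] at h1
      have h3 : c₂ / 3 * Real.log x / Real.log L = c₂ * Real.log x / (3 * Real.log L) := by
        have : Real.log L ≠ 0 := by linarith
        field_simp
      rw [h3]
      exact h1)
    (by
      rw [← hL]
      refine (GQ_card y J Z (by omega) Bad).trans ?_
      set D : ℝ := (Real.log (Real.log y)) ^ 2 /
        ((Real.log y) ^ 2 * Real.log (Real.log (Real.log y))) with hD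
      have hD0 : 0 ≤ D := by
        rw [hD]
        positivity
      have hterm : ∀ j ∈ range J, ((SV y (2 * Z) ((j : ℤ) + 1)).card : ℝ) +
          ((SV y (2 * Z) (-((j : ℤ) + 1))).card : ℝ) ≤
          (4 * Cs * Z * D) * ∏ p ∈ (j + 1).primeFactors, (1 + 3 / (p : ℝ)) := by
        intro j _
        have hy2Z : y ≤ ((2 * Z : ℕ) : ℝ) := by
          push_cast
          rw [hy]
          linarith
        have h2Zy : ((2 * Z : ℕ) : ℝ) ≤ y * (Real.log y) ^ 2 := by
          push_cast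
          linarith
        have hne : ((j : ℤ) + 1) ≠ 0 := by omega
        have hn1 : ((j : ℤ) + 1).natAbs = j + 1 := by omega
        have hn2 : (-((j : ℤ) + 1)).natAbs = j + 1 := by omega
        have h1 := hsur y ((le_max_right _ _).trans a3) (2 * Z) hy2Z h2Zy ((j : ℤ) + 1) hne
        have h2 := hsur y ((le_max_right _ _).trans a3) (2 * Z) hy2Z h2Zy (-((j : ℤ) + 1))
          (neg_ne_zero.mpr hne)
        rw [hn1] at h1
        rw [hn2] at h2
        have h3 : Cs * ((2 * Z : ℕ) : ℝ) * (Real.log (Real.log y)) ^ 2 /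
            ((Real.log y) ^ 2 * Real.log (Real.log (Real.log y))) = 2 * Cs * Z * D := by
          rw [hD]
          push_cast
          ring
        rw [h3] at h1 h2
        have e1 : ((SV y (2 * Z) ((j : ℤ) + 1)).card : ℝ) ≤
            2 * Cs * Z * D * ∏ p ∈ (j + 1).primeFactors, (1 + 3 / (p : ℝ)) := h1
        have e2 : ((SV y (2 * Z) (-((j : ℤ) + 1))).card : ℝ) ≤
            2 * Cs * Z * D * ∏ p ∈ (j + 1).primeFactors, (1 + 3 / (p : ℝ)) := h2
        linarith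
      refine (sum_le_sum hterm).trans ?_
      rw [← mul_sum]
      have h1 : (4 * Cs * Z * D) * ∑ j ∈ range J, ∏ p ∈ (j + 1).primeFactors,
          (1 + 3 / (p : ℝ)) ≤ (4 * Cs * Z * D) * (Ca * J) := by
        rw [shift_avg]
        exact mul_le_mul_of_nonneg_left (all_avg J) (by positivity)
      refine h1.trans (le_trans ?_ a8)
      have h2 : 2 * Cs * Ca * (T₀ : ℝ) * (Real.log (Real.log y)) ^ 2 /
          ((Real.log y) ^ 2 * Real.log (Real.log (Real.log y))) = (2 * Cs * Ca * D) * T₀ := by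
        rw [hD]
        ring
      rw [h2]
      have h3 : (4 * Cs * Z * D) * (Ca * J) = (2 * Cs * Ca * D) * (2 * ((J : ℝ) * (Z : ℝ))) := by
        ring
      rw [h3]
      exact mul_le_mul_of_nonneg_left (by
        have : (0 : ℝ) ≤ (J : ℝ) * (Z : ℝ) := by positivity
        linarith) (by positivity))
    (by
      have h1 := primorial_le_exp a4
      have h2 : (y ^ 9) ^ (J * Bad.card) ≤ Real.exp (L / 100) := by
        have e1 : (y ^ 9) ^ (J * Bad.card) =
            Real.exp (((J * Bad.card : ℕ) : ℝ) * (9 * Real.log y)) := by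
          rw [Real.exp_nat_mul, show (9:ℝ) = ((9:ℕ):ℝ) by norm_num, Real.exp_nat_mul,
            Real.exp_log hy0]
        rw [e1]
        apply Real.exp_le_exp.mpr
        have e2 : ((J * Bad.card : ℕ) : ℝ) * (9 * Real.log y) ≤
            L ^ (19 / 20 : ℝ) * (9 * Real.log L) := by
          push_cast
          apply mul_le_mul hJBad (by linarith) (by linarith) hrp.le
        have e3 : L ^ (19 / 20 : ℝ) * (9 * Real.log L) =
            (900 * Real.log L * L ^ (19 / 20 : ℝ)) / 100 := by ring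
        rw [e3] at e2
        linarith
      have h3 : Y ^ (1 / 2 : ℝ) = Real.exp (L / 2) := by
        rw [Real.rpow_def_of_pos hY0]
        congr 1
        ring
      rw [h3]
      have h4 : (4 : ℝ) ≤ Real.exp 3 := by
        have := Real.add_one_le_exp (3 : ℝ)
        linarith
      calc 4 * ((primorial ⌊y⌋₊ : ℝ) * (y ^ 9) ^ (J * Bad.card)) ≤
            Real.exp 3 * (Real.exp (2 * y) * Real.exp (L / 100)) := by
              apply mul_le_mul h4 _ (by positivity) (Real.exp_pos _).le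
              exact mul_le_mul h1 h2 (by positivity) (Real.exp_pos _).le
        _ = Real.exp (3 + (2 * y + L / 100)) := by rw [Real.exp_add, Real.exp_add]
        _ ≤ Real.exp (L / 2) := by
              apply Real.exp_le_exp.mpr
              rw [hy]
              linarith)
    (by
      have e1 := Real.add_one_le_exp L
      rw [← hYexp] at e1
      rw [hy]
      linarith) hy9
    (by
      rw [← hL]
      have h1 : L ^ (1 / 20 : ℝ) ≤ L := by linarith
      exact (Real.exp_le_exp.mpr h1).trans hYexp.symm.le)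
    (by
      have h1 : Y ^ 2 = Y * Y := by ring
      have h2 : 1000 * Y ≤ Y * Y := mul_le_mul_of_nonneg_right hYbig hY0.le
      rw [h1]
      linarith) (by linarith) I v hI hv hE
  refine ⟨i, hi, fun j hj k hkp => ?_⟩
  by_contra hcon
  push Not at hcon
  refine hm3 j hj k ?_ hkp
  have h1 : |(k : ℝ) - ((v i : ℝ) ^ 2 + (j : ℝ) * (v i : ℝ) + (qs j : ℝ))| =
      ((|(k : ℤ) - ((v i) ^ 2 + (j : ℤ) * (v i) + (qs j : ℤ))| : ℤ) : ℝ) := by
    push_cast
    rfl
  rw [h1] at hcon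
  exact_mod_cast hcon

/-- consecutive squares and pronic numbers -/
theorem squares_pronics_fam : ∃ c : ℝ, 0 < c ∧ ∃ Y₀ : ℝ, ∀ Y : ℝ, Y₀ ≤ Y →
    ∀ (I : Finset ℤ) (v : ℤ → ℤ), I.Nonempty → (∀ i ∈ I, Y ≤ (v i : ℝ)) →
    (∀ q : ℕ, 1 ≤ q → (q : ℝ) ≤ Y → ∀ ρ : ℤ,
      |((I.filter (fun i => (q : ℤ) ∣ v i - ρ)).card : ℝ) - I.card / (q : ℝ)| ≤
        I.card * Y ^ (-2 : ℝ)) →
    ∀ J Z : ℕ, 1 ≤ J → Real.log Y ≤ (Z : ℝ) →
    (J : ℝ) * (Z : ℝ) ≤ c * Pool.Agent.H256R2.SC.ff Y →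
    ∃ i ∈ I, ∀ j : ℕ, j < J → ∀ k : ℕ, k.Prime →
      (Z : ℝ) < |(k : ℝ) - ((v i : ℝ) + j) ^ 2| ∧
      (Z : ℝ) < |(k : ℝ) - ((v i : ℝ) + j) * ((v i : ℝ) + j + 1)| := by
  obtain ⟨c, hc, Y₀, h⟩ := qs_fam
  refine ⟨c / 2, by positivity, Y₀, fun Y hY I v hI hv hE J Z hJ hZ hJZ => ?_⟩
  obtain ⟨i, hi, hm3⟩ := h Y hY I v hI hv hE (2 * J) Z (by omega) hZ (by
    push_cast
    linarith)
  refine ⟨i, hi, fun j hj k hk => ⟨?_, ?_⟩⟩
  · have h1 := hm3 (2 * j) (by omega) k hk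
    have h2 : qs (2 * j) = j ^ 2 := by
      unfold qs
      have : (2 * j) ^ 2 = 4 * j ^ 2 := by ring
      rw [this]
      omega
    have h3 : (v i : ℝ) ^ 2 + ((2 * j : ℕ) : ℝ) * (v i : ℝ) + (qs (2 * j) : ℝ) =
        ((v i : ℝ) + j) ^ 2 := by
      rw [h2]
      push_cast
      ring
    rwa [h3] at h1
  · have h1 := hm3 (2 * j + 1) (by omega) k hk
    have h2 : qs (2 * j + 1) = j ^ 2 + j := by
      unfold qs
      have : (2 * j + 1) ^ 2 = 4 * (j ^ 2 + j) + 1 := by ring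
      rw [this]
      omega
    have h3 : (v i : ℝ) ^ 2 + ((2 * j + 1 : ℕ) : ℝ) * (v i : ℝ) + (qs (2 * j + 1) : ℝ) =
        ((v i : ℝ) + j) * ((v i : ℝ) + j + 1) := by
      rw [h2]
      push_cast
      ring
    rwa [h3] at h1

end Pool.Agent.X67.QS
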